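import Pool.Agent.W5h57.SP.Elem

/-!
# Cubic polynomials, reproduction, stability and differentiability of the element
-/

set_option autoImplicit false

namespace Pool.Agent.W5h57.SP

/-- A cubic polynomial in two variables. -/
@[ext] structure Cub where
  (c00 c10 c01 c20 c11 c02 c30 c21 c12 c03 : ℝ)

namespace Cub

/-- The value of the polynomial. -/
def ev (q : Cub) (x y : ℝ) : ℝ :=
  q.c00 + q.c10 * x + q.c01 * y + q.c20 * (x * x) + q.c11 * (x * y) + q.c02 * (y * y) +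
    q.c30 * (x * x * x) + q.c21 * (x * x * y) + q.c12 * (x * y * y) + q.c03 * (y * y * y)

/-- The partial derivative in `x`. -/
def ex (q : Cub) (x y : ℝ) : ℝ :=
  q.c10 + q.c20 * (2 * x) + q.c11 * y + q.c30 * (3 * (x * x)) + q.c21 * (2 * (x * y)) + q.c12 * (y * y)

/-- The partial derivative in `y`. -/
def ey (q : Cub) (x y : ℝ) : ℝ :=
  q.c01 + q.c11 * x + q.c02 * (2 * y) + q.c21 * (x * x) + q.c12 * (2 * (x * y)) + q.c03 * (3 * (y * y))

/-- The difference of two polynomials. -/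
def sub (q r : Cub) : Cub :=
  ⟨q.c00 - r.c00, q.c10 - r.c10, q.c01 - r.c01, q.c20 - r.c20, q.c11 - r.c11, q.c02 - r.c02,
    q.c30 - r.c30, q.c21 - r.c21, q.c12 - r.c12, q.c03 - r.c03⟩

theorem sub_ev (q r : Cub) (x y : ℝ) : (q.sub r).ev x y = q.ev x y - r.ev x y := by
  simp only [sub, ev]; ring

theorem sub_ex (q r : Cub) (x y : ℝ) : (q.sub r).ex x y = q.ex x y - r.ex x y := by
  simp only [sub, ex]; ring

theorem sub_ey (q r : Cub) (x y : ℝ) : (q.sub r).ey x y = q.ey x y - r.ey x y := by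
  simp only [sub, ey]; ring

/-- The polynomial `(x, y) ↦ q (x + a, y + b)`. -/
def shift (q : Cub) (a b : ℝ) : Cub :=
  ⟨q.ev a b, q.ex a b, q.ey a b, q.c20 + 3 * q.c30 * a + q.c21 * b, q.c11 + 2 * q.c21 * a + 2 * q.c12 * b,
    q.c02 + q.c12 * a + 3 * q.c03 * b, q.c30, q.c21, q.c12, q.c03⟩

theorem shift_ev (q : Cub) (a b x y : ℝ) : (q.shift a b).ev x y = q.ev (x + a) (y + b) := by
  simp only [shift, ev, ex, ey]; ring

theorem shift_ex (q : Cub) (a b x y : ℝ) : (q.shift a b).ex x y = q.ex (x + a) (y + b) := by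
  simp only [shift, ev, ex, ey]; ring

theorem shift_ey (q : Cub) (a b x y : ℝ) : (q.shift a b).ey x y = q.ey (x + a) (y + b) := by
  simp only [shift, ev, ex, ey]; ring

/-- Derivatives of cubic polynomials from differences. -/
theorem dir_formula (q : Cub) (x y a b : ℝ) :
    a * q.ex x y + b * q.ey x y =
      (-q.ev (x + 2 * a) (y + 2 * b) + 8 * q.ev (x + a) (y + b) - 8 * q.ev (x - a) (y - b) +
        q.ev (x - 2 * a) (y - 2 * b)) / 12 := by
  simp only [ev, ex, ey]; ring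

/-- If a cubic polynomial is bounded by `K` on the square of radius three, then its derivatives in
the directions `(a, b)` with `|a|, |b| ≤ 1` are bounded by `2 K` on the square of radius one. -/
theorem dir_bound (q : Cub) (K : ℝ) (h : ∀ x y : ℝ, |x| ≤ 3 → |y| ≤ 3 → |q.ev x y| ≤ K)
    (x y a b : ℝ) (hx : |x| ≤ 1) (hy : |y| ≤ 1) (ha : |a| ≤ 1) (hb : |b| ≤ 1) :
    |a * q.ex x y + b * q.ey x y| ≤ 2 * K := by
  rw [dir_formula]
  rw [abs_le] at hx hy ha hb
  have h1 := h (x + 2 * a) (y + 2 * b) (by rw [abs_le]; constructor <;> linarith)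
    (by rw [abs_le]; constructor <;> linarith)
  have h2 := h (x + a) (y + b) (by rw [abs_le]; constructor <;> linarith)
    (by rw [abs_le]; constructor <;> linarith)
  have h3 := h (x - a) (y - b) (by rw [abs_le]; constructor <;> linarith)
    (by rw [abs_le]; constructor <;> linarith)
  have h4 := h (x - 2 * a) (y - 2 * b) (by rw [abs_le]; constructor <;> linarith)
    (by rw [abs_le]; constructor <;> linarith)
  rw [abs_le] at h1 h2 h3 h4 ⊢
  constructor <;> linarith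

/-- The data of a cubic polynomial. -/
noncomputable def dat (q : Cub) : Dat :=
  { e0 := q.ev 1 0, e1 := q.ex 1 0, e2 := q.ey 1 0
    n0 := q.ev 0 1, n1 := q.ex 0 1, n2 := q.ey 0 1
    w0 := q.ev (-1) 0, w1 := q.ex (-1) 0, w2 := q.ey (-1) 0
    s0 := q.ev 0 (-1), s1 := q.ex 0 (-1), s2 := q.ey 0 (-1)
    a := q.ex (1 / 2) (1 / 2) + q.ey (1 / 2) (1 / 2)
    b := q.ex (-1 / 2) (1 / 2) - q.ey (-1 / 2) (1 / 2)
    c := q.ex (-1 / 2) (-1 / 2) + q.ey (-1 / 2) (-1 / 2)
    d := q.ex (1 / 2) (-1 / 2) - q.ey (1 / 2) (-1 / 2) }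

/-- The element reproduces cubic polynomials. -/
theorem val_dat (q : Cub) (u v : ℝ) : val q.dat u v = q.ev u v := by
  have h1 : ka0 q.dat = 0 := by simp only [ka0, dat, ev, ex, ey]; ring
  have h2 : ka1 q.dat = 0 := by simp only [ka1, dat, ev, ex, ey]; ring
  have h3 : ka2 q.dat = 0 := by simp only [ka2, dat, ev, ex, ey]; ring
  have h4 : kb0 q.dat = 0 := by simp only [kb0, dat, ev, ex, ey]; ring
  have h5 : kb1 q.dat = 0 := by simp only [kb1, dat, ev, ex, ey]; ring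
  have h6 : kb2 q.dat = 0 := by simp only [kb2, dat, ev, ex, ey]; ring
  have g1 : kp00 q.dat = q.c00 := by simp only [kp00, dat, ev, ex, ey]; ring
  have g2 : kp10 q.dat = q.c10 := by simp only [kp10, dat, ev, ex, ey]; ring
  have g3 : kp01 q.dat = q.c01 := by simp only [kp01, dat, ev, ex, ey]; ring
  have g4 : kp20 q.dat = q.c20 := by simp only [kp20, dat, ev, ex, ey]; ring
  have g5 : kp11 q.dat = q.c11 := by simp only [kp11, dat, ev, ex, ey]; ring
  have g6 : kp02 q.dat = q.c02 := by simp only [kp02, dat, ev, ex, ey]; ring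
  have g7 : kp30 q.dat = q.c30 := by simp only [kp30, dat, ev, ex, ey]; ring
  have g8 : kp21 q.dat = q.c21 := by simp only [kp21, dat, ev, ex, ey]; ring
  have g9 : kp12 q.dat = q.c12 := by simp only [kp12, dat, ev, ex, ey]; ring
  have g0 : kp03 q.dat = q.c03 := by simp only [kp03, dat, ev, ex, ey]; ring
  rw [val, h1, h2, h3, h4, h5, h6, g1, g2, g3, g4, g5, g6, g7, g8, g9, g0, ev]
  ring

end Cub

/-- The difference of data. -/
def Dat.sub (D E : Dat) : Dat :=
  { e0 := D.e0 - E.e0, e1 := D.e1 - E.e1, e2 := D.e2 - E.e2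
    n0 := D.n0 - E.n0, n1 := D.n1 - E.n1, n2 := D.n2 - E.n2
    w0 := D.w0 - E.w0, w1 := D.w1 - E.w1, w2 := D.w2 - E.w2
    s0 := D.s0 - E.s0, s1 := D.s1 - E.s1, s2 := D.s2 - E.s2
    a := D.a - E.a, b := D.b - E.b, c := D.c - E.c, d := D.d - E.d }

theorem val_sub (D E : Dat) (u v : ℝ) : val (D.sub E) u v = val D u v - val E u v := by
  simp only [val, Dat.sub, kp00, kp10, kp01, kp20, kp11, kp02, kp30, kp21, kp12, kp03, ka0, ka1, ka2,
    kb0, kb1, kb2]
  ring

/-- All sixteen numbers are bounded by `B`. -/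
structure Dat.Le (D : Dat) (B : ℝ) : Prop where
  (e0 : |D.e0| ≤ B) (e1 : |D.e1| ≤ B) (e2 : |D.e2| ≤ B)
  (n0 : |D.n0| ≤ B) (n1 : |D.n1| ≤ B) (n2 : |D.n2| ≤ B)
  (w0 : |D.w0| ≤ B) (w1 : |D.w1| ≤ B) (w2 : |D.w2| ≤ B)
  (s0 : |D.s0| ≤ B) (s1 : |D.s1| ≤ B) (s2 : |D.s2| ≤ B)
  (a : |D.a| ≤ B) (b : |D.b| ≤ B) (c : |D.c| ≤ B) (d : |D.d| ≤ B)

/-- Stability of the element. -/
theorem val_bound (D : Dat) (B : ℝ) (h : D.Le B) (u v : ℝ) (hu : |u| ≤ 1) (hv : |v| ≤ 1) :
    |val D u v| ≤ 96 * B := by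
  obtain ⟨h1, h2, h3, h4, h5, h6, h7, h8, h9, h10, h11, h12, h13, h14, h15, h16⟩ := h
  have hB : 0 ≤ B := (abs_nonneg _).trans h1
  rw [abs_le] at h1 h2 h3 h4 h5 h6 h7 h8 h9 h10 h11 h12 h13 h14 h15 h16
  have k1 : |kp00 D| ≤ 6 * B := by rw [kp00, abs_le]; constructor <;> linarith
  have k2 : |kp10 D| ≤ 6 * B := by rw [kp10, abs_le]; constructor <;> linarith
  have k3 : |kp01 D| ≤ 6 * B := by rw [kp01, abs_le]; constructor <;> linarith
  have k4 : |kp20 D| ≤ 6 * B := by rw [kp20, abs_le]; constructor <;> linarith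
  have k5 : |kp11 D| ≤ 6 * B := by rw [kp11, abs_le]; constructor <;> linarith
  have k6 : |kp02 D| ≤ 6 * B := by rw [kp02, abs_le]; constructor <;> linarith
  have k7 : |kp30 D| ≤ 6 * B := by rw [kp30, abs_le]; constructor <;> linarith
  have k8 : |kp21 D| ≤ 6 * B := by rw [kp21, abs_le]; constructor <;> linarith
  have k9 : |kp12 D| ≤ 6 * B := by rw [kp12, abs_le]; constructor <;> linarith
  have k10 : |kp03 D| ≤ 6 * B := by rw [kp03, abs_le]; constructor <;> linarith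
  have l1 : |ka0 D| ≤ 6 * B := by rw [ka0, abs_le]; constructor <;> linarith
  have l2 : |ka1 D| ≤ 6 * B := by rw [ka1, abs_le]; constructor <;> linarith
  have l3 : |ka2 D| ≤ 6 * B := by rw [ka2, abs_le]; constructor <;> linarith
  have l4 : |kb0 D| ≤ 6 * B := by rw [kb0, abs_le]; constructor <;> linarith
  have l5 : |kb1 D| ≤ 6 * B := by rw [kb1, abs_le]; constructor <;> linarith
  have l6 : |kb2 D| ≤ 6 * B := by rw [kb2, abs_le]; constructor <;> linarith
  have hu' : |(|u|)| ≤ 1 := by rwa [abs_abs]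
  have hv' : |(|v|)| ≤ 1 := by rwa [abs_abs]
  have mul1 : ∀ x y : ℝ, |x| ≤ 1 → |y| ≤ 1 → |x * y| ≤ 1 := fun x y hx hy => by
    rw [abs_mul]; exact mul_le_one₀ hx (abs_nonneg _) hy
  have mulK : ∀ k x : ℝ, |k| ≤ 6 * B → |x| ≤ 1 → |k * x| ≤ 6 * B := fun k x hk hx => by
    rw [abs_mul]
    calc |k| * |x| ≤ (6 * B) * 1 := mul_le_mul hk hx (abs_nonneg _) (by linarith)
      _ = 6 * B := mul_one _
  have t1 := k1
  have t2 := mulK _ _ k2 hu
  have t3 := mulK _ _ k3 hv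
  have t4 := mulK _ _ k4 (mul1 _ _ hu hu)
  have t5 := mulK _ _ k5 (mul1 _ _ hu hv)
  have t6 := mulK _ _ k6 (mul1 _ _ hv hv)
  have t7 := mulK _ _ k7 (mul1 _ _ (mul1 _ _ hu hu) hu)
  have t8 := mulK _ _ k8 (mul1 _ _ (mul1 _ _ hu hu) hv)
  have t9 := mulK _ _ k9 (mul1 _ _ (mul1 _ _ hu hv) hv)
  have t10 := mulK _ _ k10 (mul1 _ _ (mul1 _ _ hv hv) hv)
  have t11 := mulK _ _ l1 (mul1 _ _ hu hu')
  have t12 := mulK _ _ l2 (mul1 _ _ (mul1 _ _ hu hu') hu)
  have t13 := mulK _ _ l3 (mul1 _ _ (mul1 _ _ hu hu') hv)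
  have t14 := mulK _ _ l4 (mul1 _ _ hv hv')
  have t15 := mulK _ _ l5 (mul1 _ _ (mul1 _ _ hv hv') hu)
  have t16 := mulK _ _ l6 (mul1 _ _ (mul1 _ _ hv hv') hv)
  have e : val D u v = kp00 D + kp10 D * u + kp01 D * v + kp20 D * (u * u) + kp11 D * (u * v) +
      kp02 D * (v * v) + kp30 D * (u * u * u) + kp21 D * (u * u * v) + kp12 D * (u * v * v) +
      kp03 D * (v * v * v) + ka0 D * (u * |u|) + ka1 D * (u * |u| * u) + ka2 D * (u * |u| * v) +
      kb0 D * (v * |v|) + kb1 D * (v * |v| * u) + kb2 D * (v * |v| * v) := by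
    rw [val]; ring
  rw [e]
  rw [abs_le] at t1 t2 t3 t4 t5 t6 t7 t8 t9 t10 t11 t12 t13 t14 t15 t16 ⊢
  constructor <;> linarith

theorem hasDerivAt_mul_abs (u : ℝ) : HasDerivAt (fun x : ℝ => x * |x|) (2 * |u|) u := by
  rcases lt_trichotomy u 0 with h | h | h
  · have : HasDerivAt (fun x : ℝ => -(x * x)) (2 * |u|) u := by
      have h1 := ((hasDerivAt_id u).mul (hasDerivAt_id u)).neg
      refine h1.congr_deriv ?_
      rw [abs_of_neg h]
      simp only [id]
      ring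
    refine this.congr_of_eventuallyEq ?_
    filter_upwards [Iio_mem_nhds h] with x hx
    rw [abs_of_neg hx]
    ring
  · subst h
    rw [abs_zero, mul_zero, hasDerivAt_iff_isLittleO_nhds_zero]
    simp only [zero_add, abs_zero, mul_zero, sub_zero, smul_zero]
    rw [Asymptotics.isLittleO_iff]
    intro c hc
    filter_upwards [Metric.ball_mem_nhds (0 : ℝ) hc] with x hx
    rw [Metric.mem_ball, dist_zero_right, Real.norm_eq_abs] at hx
    rw [norm_mul, Real.norm_eq_abs, Real.norm_eq_abs, abs_abs]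
    exact mul_le_mul_of_nonneg_right hx.le (abs_nonneg _)
  · have : HasDerivAt (fun x : ℝ => (x * x)) (2 * |u|) u := by
      have h1 := ((hasDerivAt_id u).mul (hasDerivAt_id u))
      refine h1.congr_deriv ?_
      rw [abs_of_pos h]
      simp only [id]
      ring
    refine this.congr_of_eventuallyEq ?_
    filter_upwards [Ioi_mem_nhds h] with x hx
    rw [abs_of_pos hx]

/-- The interpolant is differentiable. -/
theorem val_hasFDerivAt (D : Dat) (a b : ℝ) (z : ℝ × ℝ) :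
    HasFDerivAt (fun z : ℝ × ℝ => val D (z.1 - a) (z.2 - b))
      (du D (z.1 - a) (z.2 - b) • ContinuousLinearMap.fst ℝ ℝ ℝ +
        dv D (z.1 - a) (z.2 - b) • ContinuousLinearMap.snd ℝ ℝ ℝ) z := by
  have hU : HasFDerivAt (fun z : ℝ × ℝ => z.1 - a) (ContinuousLinearMap.fst ℝ ℝ ℝ) z :=
    hasFDerivAt_fst.sub_const a
  have hV : HasFDerivAt (fun z : ℝ × ℝ => z.2 - b) (ContinuousLinearMap.snd ℝ ℝ ℝ) z :=
    hasFDerivAt_snd.sub_const b
  have hUU : HasFDerivAt (fun z : ℝ × ℝ => (z.1 - a) * |z.1 - a|)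
      ((2 * |z.1 - a|) • ContinuousLinearMap.fst ℝ ℝ ℝ) z :=
    HasDerivAt.comp_hasFDerivAt (h₂ := fun x : ℝ => x * |x|) (f := fun z : ℝ × ℝ => z.1 - a) z
      (hasDerivAt_mul_abs (z.1 - a)) hU
  have hVV : HasFDerivAt (fun z : ℝ × ℝ => (z.2 - b) * |z.2 - b|)
      ((2 * |z.2 - b|) • ContinuousLinearMap.snd ℝ ℝ ℝ) z :=
    HasDerivAt.comp_hasFDerivAt (h₂ := fun x : ℝ => x * |x|) (f := fun z : ℝ × ℝ => z.2 - b) z
      (hasDerivAt_mul_abs (z.2 - b)) hV
  have H := ((((((((((((hasFDerivAt_const (kp00 D) z).add (hU.const_mul (kp10 D))).add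
    (hV.const_mul (kp01 D))).add ((hU.mul hU).const_mul (kp20 D))).add
    ((hU.mul hV).const_mul (kp11 D))).add ((hV.mul hV).const_mul (kp02 D))).add
    (((hU.mul hU).mul hU).const_mul (kp30 D))).add (((hU.mul hU).mul hV).const_mul (kp21 D))).add
    (((hU.mul hV).mul hV).const_mul (kp12 D))).add (((hV.mul hV).mul hV).const_mul (kp03 D))).add
    (hUU.mul (((hasFDerivAt_const (ka0 D) z).add (hU.const_mul (ka1 D))).add
      (hV.const_mul (ka2 D))))).add
    (hVV.mul (((hasFDerivAt_const (kb0 D) z).add (hU.const_mul (kb1 D))).add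
      (hV.const_mul (kb2 D)))))
  refine H.congr_fderiv ?_
  ext
  · simp [du, dv]
    ring
  · simp [du, dv]
    ring

end Pool.Agent.W5h57.SP
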