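import Mathlib

/-!
# `C¹` cubic splines on mixed three-direction meshes: definitions
-/

set_option autoImplicit false

open Finset

namespace Pool.Agent.W5h57.SP

/-- A pattern: the square `[i h, (i + 1) h] × [j h, (j + 1) h]` is cut by its diagonal of positive
slope (NE) if `σ i j = true` and by its diagonal of negative slope (NW) if `σ i j = false`. -/
abbrev Pattern : Type := ℤ → ℤ → Bool

/-- The closed triangles of the mixed three-direction mesh of spacing `h` with pattern `σ`: the two
triangles (`b = true, false`) into which the square `(i, j)` is cut. -/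
def Cell (σ : Pattern) (h : ℝ) (i j : ℤ) (b : Bool) : Set (ℝ × ℝ) :=
  {z | i * h ≤ z.1 ∧ z.1 ≤ (i + 1) * h ∧ j * h ≤ z.2 ∧ z.2 ≤ (j + 1) * h ∧
    (σ i j = true → b = true → z.2 - j * h ≤ z.1 - i * h) ∧
    (σ i j = true → b = false → z.1 - i * h ≤ z.2 - j * h) ∧
    (σ i j = false → b = true → (z.1 - i * h) + (z.2 - j * h) ≤ h) ∧
    (σ i j = false → b = false → h ≤ (z.1 - i * h) + (z.2 - j * h))}

/-- On the set `T` the function `s` is given by a polynomial of total degree at most three. -/
def IsCubicOn (s : ℝ × ℝ → ℝ) (T : Set (ℝ × ℝ)) : Prop :=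
  ∃ c : ℕ → ℕ → ℝ, ∀ z ∈ T, s z = ∑ a ∈ range 4, ∑ b ∈ range (4 - a), c a b * z.1 ^ a * z.2 ^ b

/-- The space `S_3^1` of the mesh of spacing `h` with pattern `σ`: the continuously differentiable
functions which are given by a polynomial of total degree at most three on every triangle. -/
def Splines (σ : Pattern) (h : ℝ) : Set (ℝ × ℝ → ℝ) :=
  {s | ContDiff ℝ 1 s ∧ ∀ i j b, IsCubicOn s (Cell σ h i j b)}

/-- The estimate `dist (f, S_3^1) ≤ C ‖D⁴ f‖ |Δ_h| ^ ρ` holds, with the mesh size `|Δ_h| = √2 h` and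
a constant `C`, for all `0 < h ≤ 1` and all functions `f` of class `C^k` (for which `‖D⁴ f‖`, the
supremum of the norms of the fourth derivatives, is finite). Distances are distances in the maximum
norm on `ℝ²`. -/
def HasOrder (σ : Pattern) (k : WithTop ℕ∞) (ρ : ℝ) : Prop :=
  ∃ C : ℝ, ∀ h : ℝ, 0 < h → h ≤ 1 → ∀ f : ℝ × ℝ → ℝ, ContDiff ℝ k f →
    ∀ M : ℝ, (∀ z, ‖iteratedFDeriv ℝ 4 f z‖ ≤ M) → ∀ ε : ℝ, 0 < ε →
      ∃ s ∈ Splines σ h, ∀ z, |f z - s z| ≤ C * M * (Real.sqrt 2 * h) ^ ρ + ε

/-- The union-jack pattern: the squares with `i + j` even are NE-squares, the other squares are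
NW-squares. -/
def unionJack : Pattern := fun i j => decide (Even (i + j))

/-- The pattern `σ` differs from the union-jack pattern only in squares which form clusters of
bounded size, and different clusters are more than three squares apart: there are a number `N` and a
function `cl` such that for every square `(i, j)` at which the patterns differ, the square `cl (i, j)`
is at distance at most `N`, and `cl (i, j) = cl (i', j')` if the patterns differ at `(i', j')` and
`|i - i'|, |j - j'| ≤ 3`. -/
def NearUnionJack (σ : Pattern) : Prop :=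
  ∃ (N : ℕ) (cl : ℤ × ℤ → ℤ × ℤ), ∀ i j : ℤ, σ i j ≠ unionJack i j →
    |(cl (i, j)).1 - i| ≤ N ∧ |(cl (i, j)).2 - j| ≤ N ∧
    ∀ i' j' : ℤ, σ i' j' ≠ unionJack i' j' → |i - i'| ≤ 3 → |j - j'| ≤ 3 → cl (i, j) = cl (i', j')

end Pool.Agent.W5h57.SP
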