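import Mathlib

/-!
# The element of Fraeijs de Veubeke and Sander on the unit diamond

The diamond `|u| + |v| ≤ 1` is cut into four triangles by the axes.  A piecewise cubic `C¹` function
on it has the form `p + u |u| (a₀ + a₁ u + a₂ v) + v |v| (b₀ + b₁ u + b₂ v)` with a cubic polynomial
`p`, and is determined by values and gradients at the four vertices and by one derivative at each of the
midpoints of the four edges.
-/

set_option autoImplicit false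

namespace Pool.Agent.W5h57.SP

/-- The interpolation data: value and two partial derivatives at the vertices `(1, 0)` (`e`),
`(0, 1)` (`n`), `(-1, 0)` (`w`), `(0, -1)` (`s`), the derivatives in the direction `(1, 1)` at
`(1/2, 1/2)` (`a`) and `(-1/2, -1/2)` (`c`) and in the direction `(1, -1)` at `(-1/2, 1/2)` (`b`) and
`(1/2, -1/2)` (`d`). -/
@[ext] structure Dat where
  (e0 e1 e2 n0 n1 n2 w0 w1 w2 s0 s1 s2 a b c d : ℝ)

/-- Coefficient `p00` of the interpolant. -/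
noncomputable def kp00 (D : Dat) : ℝ :=
  (1/4) * D.e0 + (-1/24) * D.e1 + (1/4) * D.n0 + (-1/24) * D.n2 + (1/4) * D.w0 +
    (1/24) * D.w1 + (1/4) * D.s0 + (1/24) * D.s2 + (-1/12) * D.a + (1/12) * D.b +
    (1/12) * D.c + (-1/12) * D.d

/-- Coefficient `p10` of the interpolant. -/
noncomputable def kp10 (D : Dat) : ℝ :=
  (3/4) * D.e0 + (-1/8) * D.e1 + (3/8) * D.n1 + (-3/4) * D.w0 + (-1/8) * D.w1 +
    (3/8) * D.s1 + (-1/4) * D.a + (-1/4) * D.b + (-1/4) * D.c + (-1/4) * D.d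

/-- Coefficient `p01` of the interpolant. -/
noncomputable def kp01 (D : Dat) : ℝ :=
  (3/8) * D.e2 + (3/4) * D.n0 + (-1/8) * D.n2 + (3/8) * D.w2 + (-3/4) * D.s0 +
    (-1/8) * D.s2 + (-1/4) * D.a + (1/4) * D.b + (-1/4) * D.c + (1/4) * D.d

/-- Coefficient `p20` of the interpolant. -/
noncomputable def kp20 (D : Dat) : ℝ :=
  (3/4) * D.e0 + (-3/8) * D.e1 + (-3/4) * D.n0 + (1/8) * D.n2 + (3/4) * D.w0 +
    (3/8) * D.w1 + (-3/4) * D.s0 + (-1/8) * D.s2 + (1/4) * D.a + (-1/4) * D.b +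
    (-1/4) * D.c + (1/4) * D.d

/-- Coefficient `p11` of the interpolant. -/
noncomputable def kp11 (D : Dat) : ℝ :=
  (3/4) * D.e2 + (3/4) * D.n1 + (-3/4) * D.w2 + (-3/4) * D.s1 + (-1/2) * D.a +
    (-1/2) * D.b + (1/2) * D.c + (1/2) * D.d

/-- Coefficient `p02` of the interpolant. -/
noncomputable def kp02 (D : Dat) : ℝ :=
  (-3/4) * D.e0 + (1/8) * D.e1 + (3/4) * D.n0 + (-3/8) * D.n2 + (-3/4) * D.w0 +
    (-1/8) * D.w1 + (3/4) * D.s0 + (3/8) * D.s2 + (1/4) * D.a + (-1/4) * D.b +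
    (-1/4) * D.c + (1/4) * D.d

/-- Coefficient `p30` of the interpolant. -/
noncomputable def kp30 (D : Dat) : ℝ :=
  (-1/4) * D.e0 + (3/8) * D.e1 + (3/8) * D.n1 + (1/4) * D.w0 + (3/8) * D.w1 +
    (3/8) * D.s1 + (-1/4) * D.a + (-1/4) * D.b + (-1/4) * D.c + (-1/4) * D.d

/-- Coefficient `p21` of the interpolant. -/
noncomputable def kp21 (D : Dat) : ℝ :=
  (1/8) * D.e2 + (-3/4) * D.n0 + (1/8) * D.n2 + (1/8) * D.w2 + (3/4) * D.s0 +
    (1/8) * D.s2 + (1/4) * D.a + (-1/4) * D.b + (1/4) * D.c + (-1/4) * D.d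

/-- Coefficient `p12` of the interpolant. -/
noncomputable def kp12 (D : Dat) : ℝ :=
  (-3/4) * D.e0 + (1/8) * D.e1 + (1/8) * D.n1 + (3/4) * D.w0 + (1/8) * D.w1 +
    (1/8) * D.s1 + (1/4) * D.a + (1/4) * D.b + (1/4) * D.c + (1/4) * D.d

/-- Coefficient `p03` of the interpolant. -/
noncomputable def kp03 (D : Dat) : ℝ :=
  (3/8) * D.e2 + (-1/4) * D.n0 + (3/8) * D.n2 + (3/8) * D.w2 + (1/4) * D.s0 +
    (3/8) * D.s2 + (-1/4) * D.a + (1/4) * D.b + (-1/4) * D.c + (1/4) * D.d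

/-- Coefficient `a0` of the interpolant. -/
noncomputable def ka0 (D : Dat) : ℝ :=
  (-1/4) * D.e1 + (-3/4) * D.n1 + (-1/4) * D.w1 + (-3/4) * D.s1 + (1/2) * D.a +
    (1/2) * D.b + (1/2) * D.c + (1/2) * D.d

/-- Coefficient `a1` of the interpolant. -/
noncomputable def ka1 (D : Dat) : ℝ :=
  (-1/2) * D.e0 + (5/12) * D.e1 + (1/2) * D.n0 + (-1/12) * D.n2 + (-1/2) * D.w0 +
    (-5/12) * D.w1 + (1/2) * D.s0 + (1/12) * D.s2 + (-1/6) * D.a + (1/6) * D.b +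
    (1/6) * D.c + (-1/6) * D.d

/-- Coefficient `a2` of the interpolant. -/
noncomputable def ka2 (D : Dat) : ℝ :=
  (-1/4) * D.e2 + (-3/4) * D.n1 + (1/4) * D.w2 + (3/4) * D.s1 + (1/2) * D.a +
    (1/2) * D.b + (-1/2) * D.c + (-1/2) * D.d

/-- Coefficient `b0` of the interpolant. -/
noncomputable def kb0 (D : Dat) : ℝ :=
  (-3/4) * D.e2 + (-1/4) * D.n2 + (-3/4) * D.w2 + (-1/4) * D.s2 + (1/2) * D.a +
    (-1/2) * D.b + (1/2) * D.c + (-1/2) * D.d

/-- Coefficient `b1` of the interpolant. -/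
noncomputable def kb1 (D : Dat) : ℝ :=
  (-3/4) * D.e2 + (-1/4) * D.n1 + (3/4) * D.w2 + (1/4) * D.s1 + (1/2) * D.a +
    (1/2) * D.b + (-1/2) * D.c + (-1/2) * D.d

/-- Coefficient `b2` of the interpolant. -/
noncomputable def kb2 (D : Dat) : ℝ :=
  (1/2) * D.e0 + (-1/12) * D.e1 + (-1/2) * D.n0 + (5/12) * D.n2 + (1/2) * D.w0 +
    (1/12) * D.w1 + (-1/2) * D.s0 + (-5/12) * D.s2 + (-1/6) * D.a + (1/6) * D.b +
    (1/6) * D.c + (-1/6) * D.d

/-- The interpolant. -/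
noncomputable def val (D : Dat) (u v : ℝ) : ℝ :=
  kp00 D + kp10 D * u + kp01 D * v + kp20 D * (u * u) + kp11 D * (u * v) + kp02 D * (v * v) +
    kp30 D * (u * u * u) + kp21 D * (u * u * v) + kp12 D * (u * v * v) + kp03 D * (v * v * v) +
    u * |u| * (ka0 D + ka1 D * u + ka2 D * v) + v * |v| * (kb0 D + kb1 D * u + kb2 D * v)

/-- The partial derivative of the interpolant in the direction `u`. -/
noncomputable def du (D : Dat) (u v : ℝ) : ℝ :=
  kp10 D + kp20 D * (2 * u) + kp11 D * v +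
    kp30 D * (3 * (u * u)) + kp21 D * (2 * (u * v)) + kp12 D * (v * v) +
    2 * |u| * (ka0 D + ka1 D * u + ka2 D * v) + u * |u| * ka1 D + v * |v| * kb1 D

/-- The partial derivative of the interpolant in the direction `v`. -/
noncomputable def dv (D : Dat) (u v : ℝ) : ℝ :=
  kp01 D + kp11 D * u + kp02 D * (2 * v) +
    kp21 D * (u * u) + kp12 D * (2 * (u * v)) + kp03 D * (3 * (v * v)) +
    u * |u| * ka2 D + 2 * |v| * (kb0 D + kb1 D * u + kb2 D * v) + v * |v| * kb2 D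

theorem at_e (D : Dat) : val D 1 0 = D.e0 ∧ du D 1 0 = D.e1 ∧ dv D 1 0 = D.e2 := by
  refine ⟨?_, ?_, ?_⟩ <;>
  · simp only [val, du, dv, kp00, kp10, kp01, kp20, kp11, kp02, kp30, kp21, kp12, kp03, ka0, ka1, ka2, kb0, kb1, kb2]
    rw [abs_of_nonneg (by norm_num : (0 : ℝ) ≤ 1), abs_zero]
    ring

theorem at_n (D : Dat) : val D 0 1 = D.n0 ∧ du D 0 1 = D.n1 ∧ dv D 0 1 = D.n2 := by
  refine ⟨?_, ?_, ?_⟩ <;>
  · simp only [val, du, dv, kp00, kp10, kp01, kp20, kp11, kp02, kp30, kp21, kp12, kp03, ka0, ka1, ka2, kb0, kb1, kb2]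
    rw [abs_of_nonneg (by norm_num : (0 : ℝ) ≤ 1), abs_zero]
    ring

theorem at_w (D : Dat) : val D (-1) 0 = D.w0 ∧ du D (-1) 0 = D.w1 ∧ dv D (-1) 0 = D.w2 := by
  refine ⟨?_, ?_, ?_⟩ <;>
  · simp only [val, du, dv, kp00, kp10, kp01, kp20, kp11, kp02, kp30, kp21, kp12, kp03, ka0, ka1, ka2, kb0, kb1, kb2]
    rw [abs_of_nonpos (by norm_num : (-1 : ℝ) ≤ 0), abs_zero]
    ring

theorem at_s (D : Dat) : val D 0 (-1) = D.s0 ∧ du D 0 (-1) = D.s1 ∧ dv D 0 (-1) = D.s2 := by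
  refine ⟨?_, ?_, ?_⟩ <;>
  · simp only [val, du, dv, kp00, kp10, kp01, kp20, kp11, kp02, kp30, kp21, kp12, kp03, ka0, ka1, ka2, kb0, kb1, kb2]
    rw [abs_of_nonpos (by norm_num : (-1 : ℝ) ≤ 0), abs_zero]
    ring

/-- Matching across the edge between `(1, 0)` and `(0, 1)`. -/
theorem edge_ne (D D' : Dat) (h1 : D'.w0 = D.n0) (h2 : D'.w1 = D.n1) (h3 : D'.w2 = D.n2)
    (h4 : D'.s0 = D.e0) (h5 : D'.s1 = D.e1) (h6 : D'.s2 = D.e2) (h7 : D'.c = D.a) (u : ℝ)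
    (hu : 0 ≤ u) (hu1 : u ≤ 1) :
    val D u (1 - u) = val D' (u - 1) (-u) ∧ du D u (1 - u) = du D' (u - 1) (-u) ∧
      dv D u (1 - u) = dv D' (u - 1) (-u) := by
  have a1 : |u| = u := abs_of_nonneg hu
  have a2 : |1 - u| = 1 - u := abs_of_nonneg (by linarith)
  have a3 : |u - 1| = 1 - u := by rw [abs_of_nonpos (by linarith)]; ring
  have a4 : |-u| = u := by rw [abs_neg, a1]
  refine ⟨?_, ?_, ?_⟩ <;>
  · simp only [val, du, dv, kp00, kp10, kp01, kp20, kp11, kp02, kp30, kp21, kp12, kp03, ka0, ka1, ka2, kb0, kb1, kb2]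
    rw [a1, a2, a3, a4, h1, h2, h3, h4, h5, h6, h7]
    ring

/-- Matching across the edge between `(0, -1)` and `(1, 0)`. -/
theorem edge_se (D D' : Dat) (h1 : D'.w0 = D.s0) (h2 : D'.w1 = D.s1) (h3 : D'.w2 = D.s2)
    (h4 : D'.n0 = D.e0) (h5 : D'.n1 = D.e1) (h6 : D'.n2 = D.e2) (h7 : D'.b = D.d) (u : ℝ)
    (hu : 0 ≤ u) (hu1 : u ≤ 1) :
    val D u (u - 1) = val D' (u - 1) u ∧ du D u (u - 1) = du D' (u - 1) u ∧
      dv D u (u - 1) = dv D' (u - 1) u := by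
  have a1 : |u| = u := abs_of_nonneg hu
  have a3 : |u - 1| = 1 - u := by rw [abs_of_nonpos (by linarith)]; ring
  refine ⟨?_, ?_, ?_⟩ <;>
  · simp only [val, du, dv, kp00, kp10, kp01, kp20, kp11, kp02, kp30, kp21, kp12, kp03, ka0, ka1, ka2, kb0, kb1, kb2]
    rw [a1, a3, h1, h2, h3, h4, h5, h6, h7]
    ring

end Pool.Agent.W5h57.SP
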