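import Mathlib

/-!
# Gluing continuously differentiable functions along a locally finite closed cover
-/

set_option autoImplicit false

open Set Filter Topology

namespace Pool.Agent.W5h57.SP

variable {E : Type*} [NormedAddCommGroup E] [NormedSpace ℝ E]

theorem hasFDerivWithinAt_biUnion {ι : Type*} {t : Set ι} (ht : t.Finite) (D : ι → Set E) (s : E → ℝ)
    (L : E →L[ℝ] ℝ) (z : E) (h : ∀ i ∈ t, HasFDerivWithinAt s L (D i) z) :
    HasFDerivWithinAt s L (⋃ i ∈ t, D i) z := by
  induction t, ht using Set.Finite.induction_on with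
  | empty => simp
  | insert _ _ ih =>
    rw [biUnion_insert]
    exact (h _ (mem_insert _ _)).union (ih fun i hi => h i (mem_insert_of_mem _ hi))

theorem glue_contDiff {ι : Type*} (D : ι → Set E) (hlf : LocallyFinite D) (hcl : ∀ i, IsClosed (D i))
    (hcov : ∀ z, ∃ i, z ∈ D i) (S : ι → E → ℝ) (G : ι → E → (E →L[ℝ] ℝ))
    (hS : ∀ i z, HasFDerivAt (S i) (G i z) z) (hG : ∀ i, Continuous (G i))
    (hcomp : ∀ i j z, z ∈ D i → z ∈ D j → S i z = S j z ∧ G i z = G j z)
    (s : E → ℝ) (hs : ∀ i z, z ∈ D i → s z = S i z) : ContDiff ℝ 1 s := by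
  classical
  have key : ∀ i z, z ∈ D i → HasFDerivAt s (G i z) z := by
    intro i z hz
    have hfin : {j | z ∈ D j}.Finite := hlf.point_finite z
    have hcl' : IsClosed (⋃ j : {j // z ∉ D j}, D j) :=
      (hlf.comp_injective Subtype.val_injective).isClosed_iUnion fun j => hcl j
    have hnb : (⋃ j ∈ {j | z ∈ D j}, D j) ∈ 𝓝 z := by
      have hz' : z ∈ (⋃ j : {j // z ∉ D j}, D j)ᶜ := by
        simp only [mem_compl_iff, mem_iUnion, Subtype.exists, not_exists]
        intro j hj h
        exact hj h
      refine mem_of_superset (hcl'.isOpen_compl.mem_nhds hz') ?_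
      intro w hw
      obtain ⟨j, hj⟩ := hcov w
      simp only [mem_compl_iff, mem_iUnion, Subtype.exists, not_exists] at hw
      simp only [mem_ofPred_eq, mem_iUnion]
      refine ⟨j, ?_, hj⟩
      by_contra hzj
      exact hw j hzj hj
    refine (hasFDerivWithinAt_biUnion hfin D s (G i z) z ?_).hasFDerivAt hnb
    intro j hj
    rw [(hcomp i j z hz hj).2]
    exact ((hS j z).hasFDerivWithinAt).congr (fun w hw => hs j w hw) (hs j z hj)
  choose c hc using hcov
  have hd : ∀ z, HasFDerivAt s (G (c z) z) z := fun z => key _ z (hc z)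
  rw [contDiff_one_iff_fderiv]
  refine ⟨fun z => (hd z).differentiableAt, ?_⟩
  refine hlf.continuous ?_ hcl ?_
  · ext z
    simp only [mem_iUnion, mem_univ, iff_true]
    exact ⟨c z, hc z⟩
  · intro i
    refine ((hG i).continuousOn).congr ?_
    intro z hz
    exact (key i z hz).fderiv

end Pool.Agent.W5h57.SP
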