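import Pool.Agent.W5h57.SP.Unit

/-!
# The data of the spline, and the estimate at unit scale
-/

set_option autoImplicit false

open Set

namespace Pool.Agent.W5h57.SP

/-- The pattern differs from the union-jack pattern at the square `q`. -/
def Flip (σ : Pattern) (q : ℤ × ℤ) : Prop := σ q.1 q.2 ≠ unionJack q.1 q.2

/-- The square `q` is near the grid point `v`. -/
def NearV (q v : ℤ × ℤ) : Prop := -2 ≤ q.1 - v.1 ∧ q.1 - v.1 ≤ 1 ∧ -2 ≤ q.2 - v.2 ∧ q.2 - v.2 ≤ 1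

/-- The square `q` is near the square `r`. -/
def NearE (q r : ℤ × ℤ) : Prop := -1 ≤ q.1 - r.1 ∧ q.1 - r.1 ≤ 1 ∧ -1 ≤ q.2 - r.2 ∧ q.2 - r.2 ≤ 1

open Classical in
/-- The grid point whose polynomial is used at the grid point `v`. -/
noncomputable def vs (σ : Pattern) (cl : ℤ × ℤ → ℤ × ℤ) (v : ℤ × ℤ) : ℤ × ℤ :=
  if h : ∃ q, Flip σ q ∧ NearV q v then cl h.choose else v

open Classical in
/-- The grid point whose polynomial is used at the edge in the square `r`. -/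
noncomputable def es (σ : Pattern) (cl : ℤ × ℤ → ℤ × ℤ) (r : ℤ × ℤ) : ℤ × ℤ :=
  if h : ∃ q, Flip σ q ∧ NearE q r then cl h.choose else r

/-- The hypothesis on `cl`. -/
def Good (σ : Pattern) (N : ℕ) (cl : ℤ × ℤ → ℤ × ℤ) : Prop :=
  ∀ q, Flip σ q → |(cl q).1 - q.1| ≤ N ∧ |(cl q).2 - q.2| ≤ N ∧
    ∀ q', Flip σ q' → |q.1 - q'.1| ≤ 3 → |q.2 - q'.2| ≤ 3 → cl q = cl q'

theorem vs_dist {σ : Pattern} {N : ℕ} {cl : ℤ × ℤ → ℤ × ℤ} (h : Good σ N cl) (v : ℤ × ℤ) :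
    |(vs σ cl v).1 - v.1| ≤ N + 2 ∧ |(vs σ cl v).2 - v.2| ≤ N + 2 := by
  unfold vs
  split_ifs with hv
  · obtain ⟨h1, h2, h3, h4, h5⟩ := hv.choose_spec
    obtain ⟨g1, g2, -⟩ := h _ h1
    rw [abs_le] at g1 g2 ⊢
    rw [abs_le]
    omega
  · constructor <;> · simp only [sub_self, abs_zero]; positivity

theorem es_dist {σ : Pattern} {N : ℕ} {cl : ℤ × ℤ → ℤ × ℤ} (h : Good σ N cl) (v : ℤ × ℤ) :
    |(es σ cl v).1 - v.1| ≤ N + 1 ∧ |(es σ cl v).2 - v.2| ≤ N + 1 := by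
  unfold es
  split_ifs with hv
  · obtain ⟨h1, h2, h3, h4, h5⟩ := hv.choose_spec
    obtain ⟨g1, g2, -⟩ := h _ h1
    rw [abs_le] at g1 g2 ⊢
    rw [abs_le]
    omega
  · constructor <;> · simp only [sub_self, abs_zero]; positivity

theorem vs_eq {σ : Pattern} {N : ℕ} {cl : ℤ × ℤ → ℤ × ℤ} (h : Good σ N cl) (v q : ℤ × ℤ)
    (hq : Flip σ q) (hn : NearV q v) : vs σ cl v = cl q := by
  have hv : ∃ q, Flip σ q ∧ NearV q v := ⟨q, hq, hn⟩
  unfold vs
  rw [dif_pos hv]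
  obtain ⟨h1, h2, h3, h4, h5⟩ := hv.choose_spec
  obtain ⟨n1, n2, n3, n4⟩ := hn
  refine (h _ h1).2.2 q hq ?_ ?_ <;> · rw [abs_le]; omega

theorem es_eq {σ : Pattern} {N : ℕ} {cl : ℤ × ℤ → ℤ × ℤ} (h : Good σ N cl) (v q : ℤ × ℤ)
    (hq : Flip σ q) (hn : NearE q v) : es σ cl v = cl q := by
  have hv : ∃ q, Flip σ q ∧ NearE q v := ⟨q, hq, hn⟩
  unfold es
  rw [dif_pos hv]
  obtain ⟨h1, h2, h3, h4, h5⟩ := hv.choose_spec
  obtain ⟨n1, n2, n3, n4⟩ := hn
  refine (h _ h1).2.2 q hq ?_ ?_ <;> · rw [abs_le]; omega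

/-- The data from the polynomials `P w`; the polynomial `P w` is centred at the grid point `w`. -/
noncomputable def grid (σ : Pattern) (cl : ℤ × ℤ → ℤ × ℤ) (P : ℤ × ℤ → Cub) : Grid :=
  { V0 := fun i j => (P (vs σ cl (i, j))).ev (i - (vs σ cl (i, j)).1) (j - (vs σ cl (i, j)).2)
    V1 := fun i j => (P (vs σ cl (i, j))).ex (i - (vs σ cl (i, j)).1) (j - (vs σ cl (i, j)).2)
    V2 := fun i j => (P (vs σ cl (i, j))).ey (i - (vs σ cl (i, j)).1) (j - (vs σ cl (i, j)).2)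
    E0 := fun i j =>
      (P (es σ cl (i, j))).ex (i + 1 / 2 - (es σ cl (i, j)).1) (j + 1 / 2 - (es σ cl (i, j)).2) +
      (P (es σ cl (i, j))).ey (i + 1 / 2 - (es σ cl (i, j)).1) (j + 1 / 2 - (es σ cl (i, j)).2)
    E1 := fun i j =>
      (P (es σ cl (i, j))).ex (i + 1 / 2 - (es σ cl (i, j)).1) (j + 1 / 2 - (es σ cl (i, j)).2) -
      (P (es σ cl (i, j))).ey (i + 1 / 2 - (es σ cl (i, j)).1) (j + 1 / 2 - (es σ cl (i, j)).2) }

/-- At a diamond with a flipped square around its centre, all data come from one polynomial. -/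
theorem dat_flip {σ : Pattern} {N : ℕ} {cl : ℤ × ℤ → ℤ × ℤ} (h : Good σ N cl) (P : ℤ × ℤ → Cub)
    (i j : ℤ) (q : ℤ × ℤ) (hq : Flip σ q) (h1 : i - 1 ≤ q.1) (h2 : q.1 ≤ i) (h3 : j - 1 ≤ q.2)
    (h4 : q.2 ≤ j) :
    (grid σ cl P).dat i j = ((P (cl q)).shift (i - (cl q).1) (j - (cl q).2)).dat := by
  have v1 : vs σ cl (i + 1, j) = cl q := vs_eq h _ q hq (by unfold NearV; simp only; omega)
  have v2 : vs σ cl (i, j + 1) = cl q := vs_eq h _ q hq (by unfold NearV; simp only; omega)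
  have v3 : vs σ cl (i - 1, j) = cl q := vs_eq h _ q hq (by unfold NearV; simp only; omega)
  have v4 : vs σ cl (i, j - 1) = cl q := vs_eq h _ q hq (by unfold NearV; simp only; omega)
  have e1 : es σ cl (i, j) = cl q := es_eq h _ q hq (by unfold NearE; simp only; omega)
  have e2 : es σ cl (i - 1, j) = cl q := es_eq h _ q hq (by unfold NearE; simp only; omega)
  have e3 : es σ cl (i - 1, j - 1) = cl q := es_eq h _ q hq (by unfold NearE; simp only; omega)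
  have e4 : es σ cl (i, j - 1) = cl q := es_eq h _ q hq (by unfold NearE; simp only; omega)
  simp only [grid, Grid.dat, v1, v2, v3, v4, e1, e2, e3, e4, Cub.dat, Cub.shift_ev, Cub.shift_ex,
    Cub.shift_ey]
  ext <;> simp only <;> push_cast <;> ring_nf

/-- The estimate at unit scale. -/
theorem unit_estimate {σ : Pattern} {N : ℕ} {cl : ℤ × ℤ → ℤ × ℤ} (h : Good σ N cl)
    (f : ℝ × ℝ → ℝ) (M : ℝ) (P : ℤ × ℤ → Cub)
    (hP : ∀ (w : ℤ × ℤ) (z : ℝ × ℝ), |z.1 - w.1| ≤ N + 7 → |z.2 - w.2| ≤ N + 7 →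
      |f z - (P w).ev (z.1 - w.1) (z.2 - w.2)| ≤ M) :
    ∃ s ∈ Splines σ 1, ∀ z, |f z - s z| ≤ 385 * M := by
  obtain ⟨s, hs1, hs2⟩ := (grid σ cl P).exists_glued
  refine ⟨s, ⟨hs1, fun i j b => ?_⟩, fun z => ?_⟩
  · by_cases hf : Flip σ (i, j)
    · refine ((P (cl (i, j))).shift (-(cl (i, j)).1) (-(cl (i, j)).2)).isCubicOn s _ fun z hz => ?_
      obtain ⟨h1, h2, h3, h4, -⟩ := hz
      rw [mul_one] at h1 h2 h3 h4
      obtain ⟨c, hc, hzc, k1, k2, k3, k4⟩ := square_cover i j z h1 h2 h3 h4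
      rw [hs2 c hc z hzc, Grid.S, dat_flip h P c.1 c.2 (i, j) hf (by simp only; omega) k1
        (by simp only; omega) k3, Cub.val_dat, Cub.shift_ev, Cub.shift_ev]
      congr 1 <;> ring
    · exact (grid σ cl P).cubic_cell s hs2 σ i j b (not_not.1 hf)
  · obtain ⟨⟨⟨i, j⟩, hc⟩, hz⟩ := diam_cover z
    rw [hs2 (i, j) hc z hz, Grid.S]
    simp only
    have hz1 : |z.1 - i| ≤ 1 := le_trans (le_add_of_nonneg_right (abs_nonneg _)) hz
    have hz2 : |z.2 - j| ≤ 1 := le_trans (le_add_of_nonneg_left (abs_nonneg _)) hz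
    have hN : (0 : ℝ) ≤ N := Nat.cast_nonneg N
    -- the difference of the polynomials
    have hdiff : ∀ w : ℤ × ℤ, |(w.1 : ℝ) - i| ≤ N + 3 → |(w.2 : ℝ) - j| ≤ N + 3 → ∀ x y : ℝ,
        |x| ≤ 3 → |y| ≤ 3 →
        |(((P w).shift (i - w.1) (j - w.2)).sub (P (i, j))).ev x y| ≤ 2 * M := by
      intro w hw1 hw2 x y hx hy
      rw [Cub.sub_ev, Cub.shift_ev]
      have a1 := hP w (i + x, j + y) (by
        simp only
        rw [abs_le] at hw1 hx ⊢
        constructor <;> linarith) (by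
        simp only
        rw [abs_le] at hw2 hy ⊢
        constructor <;> linarith)
      have a2 := hP (i, j) (i + x, j + y) (by
        simp only [add_sub_cancel_left]
        linarith) (by
        simp only [add_sub_cancel_left]
        linarith)
      simp only [add_sub_cancel_left] at a1 a2
      have e1 : x + ((i : ℝ) - w.1) = i + x - w.1 := by ring
      have e2 : y + ((j : ℝ) - w.2) = j + y - w.2 := by ring
      rw [e1, e2]
      rw [abs_le] at a1 a2 ⊢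
      constructor <;> linarith
    have hM : 0 ≤ M := by
      have := hdiff (i, j) (by simp only [sub_self, abs_zero]; linarith)
        (by simp only [sub_self, abs_zero]; linarith) 0 0 (by norm_num) (by norm_num)
      linarith [abs_nonneg ((((P (i, j)).shift ((i : ℝ) - (i, j).1) ((j : ℝ) - (i, j).2)).sub
        (P (i, j))).ev 0 0)]
    have hev : ∀ w : ℤ × ℤ, |(w.1 : ℝ) - i| ≤ N + 3 → |(w.2 : ℝ) - j| ≤ N + 3 → ∀ x y : ℝ,
        |x| ≤ 1 → |y| ≤ 1 → ∀ X Y : ℝ, X = x + (i - w.1) → Y = y + (j - w.2) →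
        |(P w).ev X Y - (P (i, j)).ev x y| ≤ 4 * M := by
      rintro w hw1 hw2 x y hx hy X Y rfl rfl
      have := hdiff w hw1 hw2 x y (by linarith) (by linarith)
      rw [Cub.sub_ev, Cub.shift_ev] at this
      linarith
    have hdir : ∀ w : ℤ × ℤ, |(w.1 : ℝ) - i| ≤ N + 3 → |(w.2 : ℝ) - j| ≤ N + 3 → ∀ x y : ℝ,
        |x| ≤ 1 → |y| ≤ 1 → ∀ X Y : ℝ, X = x + (i - w.1) → Y = y + (j - w.2) → ∀ a b : ℝ,
        |a| ≤ 1 → |b| ≤ 1 →
        |(a * (P w).ex X Y + b * (P w).ey X Y) - (a * (P (i, j)).ex x y + b * (P (i, j)).ey x y)| ≤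
          4 * M := by
      rintro w hw1 hw2 x y hx hy X Y rfl rfl a b ha hb
      have := Cub.dir_bound _ (2 * M) (hdiff w hw1 hw2) x y a b hx hy ha hb
      rw [Cub.sub_ex, Cub.sub_ey, Cub.shift_ex, Cub.shift_ey] at this
      have e : (a * (P w).ex (x + (i - w.1)) (y + (j - w.2)) +
          b * (P w).ey (x + (i - w.1)) (y + (j - w.2))) -
          (a * (P (i, j)).ex x y + b * (P (i, j)).ey x y) =
          a * ((P w).ex (x + (i - w.1)) (y + (j - w.2)) - (P (i, j)).ex x y) +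
          b * ((P w).ey (x + (i - w.1)) (y + (j - w.2)) - (P (i, j)).ey x y) := by ring
      rw [e]
      linarith
    -- distances
    have dv' : ∀ v : ℤ × ℤ, |v.1 - i| ≤ 1 → |v.2 - j| ≤ 1 →
        |((vs σ cl v).1 : ℝ) - i| ≤ N + 3 ∧ |((vs σ cl v).2 : ℝ) - j| ≤ N + 3 := by
      intro v h1 h2
      obtain ⟨g1, g2⟩ := vs_dist h v
      have k1 : |(vs σ cl v).1 - i| ≤ N + 3 := by
        rw [abs_le] at g1 h1 ⊢; omega
      have k2 : |(vs σ cl v).2 - j| ≤ N + 3 := by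
        rw [abs_le] at g2 h2 ⊢; omega
      exact ⟨by exact_mod_cast k1, by exact_mod_cast k2⟩
    have de' : ∀ v : ℤ × ℤ, |v.1 - i| ≤ 1 → |v.2 - j| ≤ 1 →
        |((es σ cl v).1 : ℝ) - i| ≤ N + 3 ∧ |((es σ cl v).2 : ℝ) - j| ≤ N + 3 := by
      intro v h1 h2
      obtain ⟨g1, g2⟩ := es_dist h v
      have k1 : |(es σ cl v).1 - i| ≤ N + 3 := by
        rw [abs_le] at g1 h1 ⊢; omega
      have k2 : |(es σ cl v).2 - j| ≤ N + 3 := by
        rw [abs_le] at g2 h2 ⊢; omega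
      exact ⟨by exact_mod_cast k1, by exact_mod_cast k2⟩
    have hLe : (((grid σ cl P).dat i j).sub (P (i, j)).dat).Le (4 * M) := by
      have Hv : ∀ v : ℤ × ℤ, |v.1 - i| ≤ 1 → |v.2 - j| ≤ 1 → ∀ x y : ℝ, x = v.1 - i → y = v.2 - j →
          |(P (vs σ cl v)).ev (v.1 - (vs σ cl v).1) (v.2 - (vs σ cl v).2) - (P (i, j)).ev x y| ≤ 4 * M ∧
          |(P (vs σ cl v)).ex (v.1 - (vs σ cl v).1) (v.2 - (vs σ cl v).2) - (P (i, j)).ex x y| ≤ 4 * M ∧
          |(P (vs σ cl v)).ey (v.1 - (vs σ cl v).1) (v.2 - (vs σ cl v).2) - (P (i, j)).ey x y| ≤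
            4 * M := by
        rintro v h1 h2 x y rfl rfl
        obtain ⟨g1, g2⟩ := dv' v h1 h2
        have h1' : |(v.1 : ℝ) - i| ≤ 1 := by exact_mod_cast h1
        have h2' : |(v.2 : ℝ) - j| ≤ 1 := by exact_mod_cast h2
        refine ⟨hev _ g1 g2 _ _ h1' h2' _ _ (by ring) (by ring), ?_, ?_⟩
        · have := hdir _ g1 g2 _ _ h1' h2' (v.1 - (vs σ cl v).1) (v.2 - (vs σ cl v).2) (by ring)
            (by ring) 1 0 (by norm_num) (by norm_num)
          simpa using this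
        · have := hdir _ g1 g2 _ _ h1' h2' (v.1 - (vs σ cl v).1) (v.2 - (vs σ cl v).2) (by ring)
            (by ring) 0 1 (by norm_num) (by norm_num)
          simpa using this
      have He : ∀ v : ℤ × ℤ, |v.1 - i| ≤ 1 → |v.2 - j| ≤ 1 → ∀ x y : ℝ, |x| ≤ 1 → |y| ≤ 1 →
          x = v.1 + 1 / 2 - i → y = v.2 + 1 / 2 - j →
          |((P (es σ cl v)).ex (v.1 + 1 / 2 - (es σ cl v).1) (v.2 + 1 / 2 - (es σ cl v).2) +
            (P (es σ cl v)).ey (v.1 + 1 / 2 - (es σ cl v).1) (v.2 + 1 / 2 - (es σ cl v).2)) -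
            ((P (i, j)).ex x y + (P (i, j)).ey x y)| ≤ 4 * M ∧
          |((P (es σ cl v)).ex (v.1 + 1 / 2 - (es σ cl v).1) (v.2 + 1 / 2 - (es σ cl v).2) -
            (P (es σ cl v)).ey (v.1 + 1 / 2 - (es σ cl v).1) (v.2 + 1 / 2 - (es σ cl v).2)) -
            ((P (i, j)).ex x y - (P (i, j)).ey x y)| ≤ 4 * M := by
        rintro v h1 h2 x y hx hy rfl rfl
        obtain ⟨g1, g2⟩ := de' v h1 h2
        refine ⟨?_, ?_⟩
        · have := hdir _ g1 g2 _ _ hx hy (v.1 + 1 / 2 - (es σ cl v).1) (v.2 + 1 / 2 - (es σ cl v).2)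
            (by ring) (by ring) 1 1 (by norm_num) (by norm_num)
          simpa using this
        · have := hdir _ g1 g2 _ _ hx hy (v.1 + 1 / 2 - (es σ cl v).1) (v.2 + 1 / 2 - (es σ cl v).2)
            (by ring) (by ring) 1 (-1) (by norm_num) (by norm_num)
          simpa [← sub_eq_add_neg] using this
      obtain ⟨a1, a2, a3⟩ := Hv (i + 1, j) (by simp) (by simp) 1 0 (by simp) (by simp)
      obtain ⟨b1, b2, b3⟩ := Hv (i, j + 1) (by simp) (by simp) 0 1 (by simp) (by simp)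
      obtain ⟨c1, c2, c3⟩ := Hv (i - 1, j) (by simp) (by simp) (-1) 0 (by simp) (by simp)
      obtain ⟨d1, d2, d3⟩ := Hv (i, j - 1) (by simp) (by simp) 0 (-1) (by simp) (by simp)
      have half1 : |(1 / 2 : ℝ)| ≤ 1 := by rw [abs_of_pos] <;> norm_num
      have half2 : |(-1 / 2 : ℝ)| ≤ 1 := by rw [abs_of_neg] <;> norm_num
      obtain ⟨e1, -⟩ := He (i, j) (by simp) (by simp) (1 / 2) (1 / 2) half1 half1 (by simp) (by simp)
      obtain ⟨-, e2⟩ := He (i - 1, j) (by simp) (by simp) (-1 / 2) (1 / 2) half2 half1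
        (by push_cast; ring) (by simp)
      obtain ⟨e3, -⟩ := He (i - 1, j - 1) (by simp) (by simp) (-1 / 2) (-1 / 2) half2 half2
        (by push_cast; ring) (by push_cast; ring)
      obtain ⟨-, e4⟩ := He (i, j - 1) (by simp) (by simp) (1 / 2) (-1 / 2) half1 half2
        (by simp) (by push_cast; ring)
      exact ⟨a1, a2, a3, b1, b2, b3, c1, c2, c3, d1, d2, d3, e1, e2, e3, e4⟩
    have hb := val_bound _ _ hLe (z.1 - i) (z.2 - j) hz1 hz2
    rw [val_sub, Cub.val_dat] at hb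
    have hf := hP (i, j) z (by simp only; linarith) (by simp only; linarith)
    simp only at hf
    rw [abs_le] at hb hf ⊢
    constructor <;> linarith

end Pool.Agent.W5h57.SP
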