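import Pool.Agent.W5h57.SP.Source

/-!
# Taylor polynomials, scaling, and the order of approximation
-/

set_option autoImplicit false

open Set Finset

namespace Pool.Agent.W5h57.SP

theorem m_step {k : ℕ} (m : ContinuousMultilinearMap ℝ (fun _ : Fin (k + 1) => ℝ × ℝ) ℝ) (y : ℝ × ℝ) :
    m (fun _ => y) = y.1 * (m.curryLeft (1, 0)) (fun _ => y) +
      y.2 * (m.curryLeft (0, 1)) (fun _ => y) := by
  have hy : y = y.1 • ((1 : ℝ), (0 : ℝ)) + y.2 • ((0 : ℝ), (1 : ℝ)) := by ext <;> simp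
  have h1 : m (fun _ => y) = m.curryLeft y (fun _ => y) := by
    rw [ContinuousMultilinearMap.curryLeft_apply]
    congr 1
    ext i
    · refine Fin.cases ?_ (fun i => ?_) i <;> simp
    · refine Fin.cases ?_ (fun i => ?_) i <;> simp
  have h2 : m.curryLeft y = y.1 • m.curryLeft (1, 0) + y.2 • m.curryLeft (0, 1) := by
    conv_lhs => rw [hy]
    rw [map_add, map_smul, map_smul]
  rw [h1, h2]
  simp

theorem m0 (m : ContinuousMultilinearMap ℝ (fun _ : Fin 0 => ℝ × ℝ) ℝ) :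
    ∃ a : ℝ, ∀ y : ℝ × ℝ, m (fun _ => y) = a :=
  ⟨m (fun _ => 0), fun y => congrArg m (Subsingleton.elim _ _)⟩

theorem m1 (m : ContinuousMultilinearMap ℝ (fun _ : Fin 1 => ℝ × ℝ) ℝ) :
    ∃ a b : ℝ, ∀ y : ℝ × ℝ, m (fun _ => y) = a * y.1 + b * y.2 := by
  obtain ⟨a, ha⟩ := m0 (m.curryLeft (1, 0))
  obtain ⟨b, hb⟩ := m0 (m.curryLeft (0, 1))
  refine ⟨a, b, fun y => ?_⟩
  rw [m_step, ha, hb]
  ring

theorem m2 (m : ContinuousMultilinearMap ℝ (fun _ : Fin 2 => ℝ × ℝ) ℝ) :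
    ∃ a b c : ℝ, ∀ y : ℝ × ℝ, m (fun _ => y) =
      a * (y.1 * y.1) + b * (y.1 * y.2) + c * (y.2 * y.2) := by
  obtain ⟨a, b, h⟩ := m1 (m.curryLeft (1, 0))
  obtain ⟨a', b', h'⟩ := m1 (m.curryLeft (0, 1))
  refine ⟨a, b + a', b', fun y => ?_⟩
  rw [m_step, h, h']
  ring

theorem m3 (m : ContinuousMultilinearMap ℝ (fun _ : Fin 3 => ℝ × ℝ) ℝ) :
    ∃ a b c d : ℝ, ∀ y : ℝ × ℝ, m (fun _ => y) =
      a * (y.1 * y.1 * y.1) + b * (y.1 * y.1 * y.2) + c * (y.1 * y.2 * y.2) +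
        d * (y.2 * y.2 * y.2) := by
  obtain ⟨a, b, c, h⟩ := m2 (m.curryLeft (1, 0))
  obtain ⟨a', b', c', h'⟩ := m2 (m.curryLeft (0, 1))
  refine ⟨a, b + a', c + b', c', fun y => ?_⟩
  rw [m_step, h, h']
  ring

/-- The Taylor polynomial of degree three is a cubic polynomial. -/
theorem taylor_cub (f : ℝ × ℝ → ℝ) (W : ℝ × ℝ) : ∃ q : Cub, ∀ y : ℝ × ℝ, q.ev y.1 y.2 =
    ∑ k ∈ range (3 + 1), (Nat.factorial k : ℝ)⁻¹ • (iteratedFDeriv ℝ k f W (fun _ ↦ y)) := by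
  obtain ⟨a, ha⟩ := m0 (iteratedFDeriv ℝ 0 f W)
  obtain ⟨b1, b2, hb⟩ := m1 (iteratedFDeriv ℝ 1 f W)
  obtain ⟨c1, c2, c3, hc⟩ := m2 (iteratedFDeriv ℝ 2 f W)
  obtain ⟨d1, d2, d3, d4, hd⟩ := m3 (iteratedFDeriv ℝ 3 f W)
  refine ⟨⟨a, b1, b2, c1 / 2, c2 / 2, c3 / 2, d1 / 6, d2 / 6, d3 / 6, d4 / 6⟩, fun y => ?_⟩
  rw [Finset.sum_range_succ, Finset.sum_range_succ, Finset.sum_range_succ, Finset.sum_range_one,
    ha, hb, hc, hd]
  simp only [Cub.ev, Nat.factorial, smul_eq_mul]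
  norm_num
  ring

theorem taylor_bound (f : ℝ × ℝ → ℝ) (hf : ContDiff ℝ 4 f) (M : ℝ)
    (hM : ∀ z, ‖iteratedFDeriv ℝ 4 f z‖ ≤ M) (W y : ℝ × ℝ) :
    |f (W + y) - ∑ k ∈ range (3 + 1), (Nat.factorial k : ℝ)⁻¹ • (iteratedFDeriv ℝ k f W (fun _ ↦ y))|
      ≤ M * ‖y‖ ^ 4 := by
  have h := map_add_eq_sum_add_integral_iteratedFDeriv (f := f) (x := W) (y := y) (n := 3)
    (fun t _ => hf.contDiffAt.of_le (by norm_num))
  rw [h, add_sub_cancel_left]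
  have hM0 : 0 ≤ M := (norm_nonneg _).trans (hM 0)
  have h1 : ‖∫ t in (0 : ℝ)..1, (1 - t) ^ 3 • iteratedFDeriv ℝ (3 + 1) f (W + t • y) (fun _ ↦ y)‖ ≤
      (M * ‖y‖ ^ 4) * |1 - 0| := by
    refine intervalIntegral.norm_integral_le_of_norm_le_const fun t ht => ?_
    rw [Set.uIoc_of_le zero_le_one] at ht
    rw [norm_smul]
    have h2 : ‖(1 - t) ^ 3‖ ≤ 1 := by
      rw [norm_pow, Real.norm_eq_abs, abs_of_nonneg (by linarith [ht.2])]
      exact pow_le_one₀ (by linarith [ht.2]) (by linarith [ht.1])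
    have h3 : ‖iteratedFDeriv ℝ (3 + 1) f (W + t • y) (fun _ ↦ y)‖ ≤ M * ‖y‖ ^ 4 := by
      refine (ContinuousMultilinearMap.le_opNorm _ _).trans ?_
      rw [Finset.prod_const, Finset.card_univ, Fintype.card_fin]
      exact mul_le_mul_of_nonneg_right (hM _) (by positivity)
    calc _ ≤ 1 * (M * ‖y‖ ^ 4) := mul_le_mul h2 h3 (norm_nonneg _) zero_le_one
      _ = M * ‖y‖ ^ 4 := one_mul _
  rw [smul_eq_mul, abs_mul]
  rw [Real.norm_eq_abs] at h1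
  have h4 : |((Nat.factorial 3 : ℕ) : ℝ)⁻¹| ≤ 1 := by
    rw [abs_of_nonneg (by positivity)]
    norm_num [Nat.factorial]
  calc _ ≤ 1 * ((M * ‖y‖ ^ 4) * |1 - 0|) := mul_le_mul h4 h1 (abs_nonneg _) zero_le_one
    _ = M * ‖y‖ ^ 4 := by norm_num

/-- The estimate with mesh size one. -/
theorem unit_main {σ : Pattern} {N : ℕ} {cl : ℤ × ℤ → ℤ × ℤ} (h : Good σ N cl)
    (f : ℝ × ℝ → ℝ) (hf : ContDiff ℝ 4 f) (M : ℝ) (hM : ∀ z, ‖iteratedFDeriv ℝ 4 f z‖ ≤ M) :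
    ∃ s ∈ Splines σ 1, ∀ z, |f z - s z| ≤ 385 * (M * (N + 7) ^ 4) := by
  have hM0 : 0 ≤ M := (norm_nonneg _).trans (hM 0)
  choose P hP using fun w : ℤ × ℤ => taylor_cub f ((w.1 : ℝ), (w.2 : ℝ))
  refine unit_estimate h f _ P ?_
  intro w z h1 h2
  have := taylor_bound f hf M hM ((w.1 : ℝ), (w.2 : ℝ)) (z.1 - w.1, z.2 - w.2)
  rw [← hP w] at this
  have e : ((w.1 : ℝ), (w.2 : ℝ)) + (z.1 - w.1, z.2 - w.2) = z := by ext <;> simp
  rw [e] at this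
  refine this.trans ?_
  refine mul_le_mul_of_nonneg_left ?_ hM0
  refine pow_le_pow_left₀ (norm_nonneg _) ?_ 4
  rw [Prod.norm_def, Real.norm_eq_abs, Real.norm_eq_abs]
  exact max_le h1 h2

/-- The norm of the fourth derivative of a rescaled function. -/
theorem scale_deriv (f : ℝ × ℝ → ℝ) (hf : ContDiff ℝ 4 f) (M : ℝ)
    (hM : ∀ z, ‖iteratedFDeriv ℝ 4 f z‖ ≤ M) (h : ℝ) (hh : 0 < h) :
    ContDiff ℝ 4 (fun z => f (h • z)) ∧ ∀ z, ‖iteratedFDeriv ℝ 4 (fun z => f (h • z)) z‖ ≤ h ^ 4 * M := by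
  set L : ℝ × ℝ →L[ℝ] ℝ × ℝ := h • ContinuousLinearMap.id ℝ (ℝ × ℝ) with hL
  have hfL : (fun z => f (h • z)) = f ∘ L := by
    ext z
    simp [hL]
  rw [hfL]
  refine ⟨hf.comp L.contDiff, fun z => ?_⟩
  rw [L.iteratedFDeriv_comp_right hf z le_rfl]
  refine (ContinuousMultilinearMap.norm_compContinuousLinearMap_le _ _).trans ?_
  rw [Finset.prod_const, Finset.card_univ, Fintype.card_fin]
  have hLn : ‖L‖ ≤ h := by
    rw [hL, norm_smul, Real.norm_eq_abs, abs_of_pos hh]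
    calc h * ‖ContinuousLinearMap.id ℝ (ℝ × ℝ)‖ ≤ h * 1 :=
          mul_le_mul_of_nonneg_left ContinuousLinearMap.norm_id_le hh.le
      _ = h := mul_one h
  calc ‖iteratedFDeriv ℝ 4 f (L z)‖ * ‖L‖ ^ 4 ≤ M * h ^ 4 :=
        mul_le_mul (hM _) (pow_le_pow_left₀ (norm_nonneg _) hLn 4) (by positivity)
          ((norm_nonneg _).trans (hM 0))
    _ = h ^ 4 * M := mul_comm _ _

theorem scale_spline (σ : Pattern) (s : ℝ × ℝ → ℝ) (hs : s ∈ Splines σ 1) (h : ℝ) (hh : 0 < h) :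
    (fun z : ℝ × ℝ => s (h⁻¹ • z)) ∈ Splines σ h := by
  refine ⟨hs.1.comp (contDiff_const_smul _), fun i j b => ?_⟩
  obtain ⟨c, hc⟩ := hs.2 i j b
  refine ⟨fun a b => c a b * (h⁻¹ ^ a * h⁻¹ ^ b), fun z hz => ?_⟩
  have hz' : h⁻¹ • z ∈ Cell σ 1 i j b := by
    obtain ⟨h1, h2, h3, h4, h5, h6, h7, h8⟩ := hz
    have e1 : z.1 = h * (h⁻¹ * z.1) := by field_simp
    have e2 : z.2 = h * (h⁻¹ * z.2) := by field_simp
    have key : ∀ a b : ℝ, h * a ≤ h * b → a ≤ b := fun a b hab => le_of_mul_le_mul_left hab hh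
    refine ⟨?_, ?_, ?_, ?_, fun g1 g2 => ?_, fun g1 g2 => ?_, fun g1 g2 => ?_, fun g1 g2 => ?_⟩
    · simp only [Prod.smul_fst, smul_eq_mul]
      exact key _ _ (by linarith)
    · simp only [Prod.smul_fst, smul_eq_mul]
      exact key _ _ (by linarith)
    · simp only [Prod.smul_snd, smul_eq_mul]
      exact key _ _ (by linarith)
    · simp only [Prod.smul_snd, smul_eq_mul]
      exact key _ _ (by linarith)
    · have := h5 g1 g2
      simp only [Prod.smul_fst, Prod.smul_snd, smul_eq_mul]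
      exact key _ _ (by linarith)
    · have := h6 g1 g2
      simp only [Prod.smul_fst, Prod.smul_snd, smul_eq_mul]
      exact key _ _ (by linarith)
    · have := h7 g1 g2
      simp only [Prod.smul_fst, Prod.smul_snd, smul_eq_mul]
      exact key _ _ (by linarith)
    · have := h8 g1 g2
      simp only [Prod.smul_fst, Prod.smul_snd, smul_eq_mul]
      exact key _ _ (by linarith)
  simp only
  rw [hc _ hz']
  refine Finset.sum_congr rfl fun a _ => Finset.sum_congr rfl fun b _ => ?_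
  simp only [Prod.smul_fst, Prod.smul_snd, smul_eq_mul, mul_pow]
  ring

/-- The order of approximation is at least four. -/
theorem order_ge {σ : Pattern} {N : ℕ} {cl : ℤ × ℤ → ℤ × ℤ} (hg : Good σ N cl) (k : WithTop ℕ∞)
    (hk : 4 ≤ k) : HasOrder σ k 4 := by
  refine ⟨385 * (N + 7) ^ 4, fun h hh _ f hf M hM ε hε => ?_⟩
  have hf4 : ContDiff ℝ 4 f := hf.of_le hk
  have hM0 : 0 ≤ M := (norm_nonneg _).trans (hM 0)
  obtain ⟨hf1, hM1⟩ := scale_deriv f hf4 M hM h hh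
  obtain ⟨s, hs, hb⟩ := unit_main hg _ hf1 _ hM1
  refine ⟨_, scale_spline σ s hs h hh, fun z => ?_⟩
  have h1 := hb (h⁻¹ • z)
  simp only [smul_inv_smul₀ hh.ne'] at h1
  refine h1.trans ?_
  have e : (Real.sqrt 2 * h) ^ (4 : ℝ) = 4 * h ^ 4 := by
    rw [show (4 : ℝ) = ((4 : ℕ) : ℝ) by norm_num, Real.rpow_natCast, mul_pow]
    have : Real.sqrt 2 ^ 4 = 4 := by
      have h2 : Real.sqrt 2 ^ 2 = 2 := Real.sq_sqrt (by norm_num)
      calc Real.sqrt 2 ^ 4 = (Real.sqrt 2 ^ 2) ^ 2 := by ring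
        _ = 4 := by rw [h2]; norm_num
    rw [this]
    norm_num
  rw [e]
  have h3 : 0 ≤ (N + 7 : ℝ) ^ 4 * M * h ^ 4 := by positivity
  nlinarith

end Pool.Agent.W5h57.SP
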