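import Pool.Agent.W5h57.SP.Cub
import Pool.Agent.W5h57.SP.Glue
import Pool.Agent.W5h57.SP.Defs

/-!
# The spline at unit scale
-/

set_option autoImplicit false

open Set

namespace Pool.Agent.W5h57.SP

/-- The diamond with centre `c`. -/
def Diam (c : ℤ × ℤ) : Set (ℝ × ℝ) := {z | |z.1 - c.1| + |z.2 - c.2| ≤ 1}

/-- The centres of the diamonds. -/
abbrev Odd2 : Type := {c : ℤ × ℤ // ¬ Even (c.1 + c.2)}

theorem diam_closed (c : ℤ × ℤ) : IsClosed (Diam c) := by
  unfold Diam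
  exact isClosed_le (by fun_prop) continuous_const

theorem diam_locallyFinite : LocallyFinite (fun c : Odd2 => Diam c.1) := by
  intro z
  refine ⟨Metric.ball z 1, Metric.ball_mem_nhds z one_pos, ?_⟩
  have hfin : ({c : ℤ × ℤ | ⌊z.1⌋ - 3 ≤ c.1 ∧ c.1 ≤ ⌊z.1⌋ + 3 ∧ ⌊z.2⌋ - 3 ≤ c.2 ∧ c.2 ≤ ⌊z.2⌋ + 3} :
      Set (ℤ × ℤ)).Finite := by
    refine ((Set.finite_Icc (⌊z.1⌋ - 3) (⌊z.1⌋ + 3)).prod (Set.finite_Icc (⌊z.2⌋ - 3)
      (⌊z.2⌋ + 3))).subset ?_
    rintro c ⟨h1, h2, h3, h4⟩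
    exact ⟨⟨h1, h2⟩, ⟨h3, h4⟩⟩
  refine (hfin.preimage Subtype.val_injective.injOn).subset ?_
  rintro ⟨c, hc⟩ ⟨w, hw1, hw2⟩
  simp only [Diam, mem_ofPred_eq] at hw1
  rw [Metric.mem_ball, Prod.dist_eq, max_lt_iff, Real.dist_eq, Real.dist_eq] at hw2
  have h1 := abs_le.1 (le_trans (le_add_of_nonneg_right (abs_nonneg _)) hw1)
  have h2 := abs_le.1 (le_trans (le_add_of_nonneg_left (abs_nonneg _)) hw1)
  have h3 := abs_lt.1 hw2.1
  have h4 := abs_lt.1 hw2.2
  have f1 := Int.floor_le z.1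
  have f2 := Int.lt_floor_add_one z.1
  have f3 := Int.floor_le z.2
  have f4 := Int.lt_floor_add_one z.2
  simp only [mem_preimage, mem_ofPred_eq]
  refine ⟨?_, ?_, ?_, ?_⟩
  · have : (⌊z.1⌋ : ℝ) - 3 ≤ c.1 := by linarith
    exact_mod_cast this
  · have : (c.1 : ℝ) ≤ ⌊z.1⌋ + 3 := by linarith
    exact_mod_cast this
  · have : (⌊z.2⌋ : ℝ) - 3 ≤ c.2 := by linarith
    exact_mod_cast this
  · have : (c.2 : ℝ) ≤ ⌊z.2⌋ + 3 := by linarith
    exact_mod_cast this

/-- A point of the square `(i, j)` lies in a diamond whose centre is a corner of the square. -/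
theorem square_cover (i j : ℤ) (z : ℝ × ℝ) (h1 : (i : ℝ) ≤ z.1) (h2 : z.1 ≤ i + 1)
    (h3 : (j : ℝ) ≤ z.2) (h4 : z.2 ≤ j + 1) :
    ∃ c : ℤ × ℤ, ¬ Even (c.1 + c.2) ∧ z ∈ Diam c ∧ i ≤ c.1 ∧ c.1 ≤ i + 1 ∧ j ≤ c.2 ∧ c.2 ≤ j + 1 := by
  have a1 : |z.1 - i| = z.1 - i := abs_of_nonneg (by linarith)
  have a2 : |z.1 - (i + 1)| = i + 1 - z.1 := by rw [abs_of_nonpos (by linarith)]; ring
  have a3 : |z.2 - j| = z.2 - j := abs_of_nonneg (by linarith)
  have a4 : |z.2 - (j + 1)| = j + 1 - z.2 := by rw [abs_of_nonpos (by linarith)]; ring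
  by_cases hp : Even (i + j)
  · rcases le_total (z.2 - j) (z.1 - i) with h | h
    · refine ⟨(i + 1, j), ?_, ?_, by simp, by simp, by simp, by simp⟩
      · simp only
        rw [Int.even_iff] at hp ⊢
        omega
      · simp only [Diam, mem_ofPred_eq]
        push_cast
        rw [a2, a3]
        linarith
    · refine ⟨(i, j + 1), ?_, ?_, by simp, by simp, by simp, by simp⟩
      · simp only
        rw [Int.even_iff] at hp ⊢
        omega
      · simp only [Diam, mem_ofPred_eq]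
        push_cast
        rw [a1, a4]
        linarith
  · rcases le_total ((z.1 - i) + (z.2 - j)) 1 with h | h
    · refine ⟨(i, j), hp, ?_, by simp, by simp, by simp, by simp⟩
      simp only [Diam, mem_ofPred_eq]
      rw [a1, a3]
      linarith
    · refine ⟨(i + 1, j + 1), ?_, ?_, by simp, by simp, by simp, by simp⟩
      · simp only
        rw [Int.even_iff] at hp ⊢
        omega
      · simp only [Diam, mem_ofPred_eq]
        push_cast
        rw [a2, a4]
        linarith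

theorem diam_cover (z : ℝ × ℝ) : ∃ c : Odd2, z ∈ Diam c.1 := by
  obtain ⟨c, h1, h2, -⟩ := square_cover ⌊z.1⌋ ⌊z.2⌋ z (Int.floor_le _) (Int.lt_floor_add_one _).le
    (Int.floor_le _) (Int.lt_floor_add_one _).le
  exact ⟨⟨c, h1⟩, h2⟩

/-- Data on the grid: values and gradients at the grid points, two directional derivatives for the
squares. -/
structure Grid where
  (V0 V1 V2 E0 E1 : ℤ → ℤ → ℝ)

/-- The data of the diamond with centre `(i, j)`. -/
def Grid.dat (g : Grid) (i j : ℤ) : Dat :=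
  { e0 := g.V0 (i + 1) j, e1 := g.V1 (i + 1) j, e2 := g.V2 (i + 1) j
    n0 := g.V0 i (j + 1), n1 := g.V1 i (j + 1), n2 := g.V2 i (j + 1)
    w0 := g.V0 (i - 1) j, w1 := g.V1 (i - 1) j, w2 := g.V2 (i - 1) j
    s0 := g.V0 i (j - 1), s1 := g.V1 i (j - 1), s2 := g.V2 i (j - 1)
    a := g.E0 i j, b := g.E1 (i - 1) j, c := g.E0 (i - 1) (j - 1), d := g.E1 i (j - 1) }

/-- The local interpolant of the diamond with centre `c`, as a function on the plane. -/
noncomputable def Grid.S (g : Grid) (c : ℤ × ℤ) (z : ℝ × ℝ) : ℝ :=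
  val (g.dat c.1 c.2) (z.1 - c.1) (z.2 - c.2)

/-- Its derivative. -/
noncomputable def Grid.G (g : Grid) (c : ℤ × ℤ) (z : ℝ × ℝ) : ℝ × ℝ →L[ℝ] ℝ :=
  du (g.dat c.1 c.2) (z.1 - c.1) (z.2 - c.2) • ContinuousLinearMap.fst ℝ ℝ ℝ +
    dv (g.dat c.1 c.2) (z.1 - c.1) (z.2 - c.2) • ContinuousLinearMap.snd ℝ ℝ ℝ

theorem Grid.S_deriv (g : Grid) (c : ℤ × ℤ) (z : ℝ × ℝ) : HasFDerivAt (g.S c) (g.G c z) z :=
  val_hasFDerivAt _ _ _ _

theorem Grid.G_cont (g : Grid) (c : ℤ × ℤ) : Continuous (g.G c) := by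
  unfold Grid.G du dv
  fun_prop

/-- The two local interpolants agree to first order at `z`. -/
def Grid.Agree (g : Grid) (c c' : ℤ × ℤ) (z : ℝ × ℝ) : Prop :=
  g.S c z = g.S c' z ∧ g.G c z = g.G c' z

theorem Grid.agree_of (g : Grid) (c c' : ℤ × ℤ) (z : ℝ × ℝ)
    (h : val (g.dat c.1 c.2) (z.1 - c.1) (z.2 - c.2) = val (g.dat c'.1 c'.2) (z.1 - c'.1) (z.2 - c'.2) ∧
      du (g.dat c.1 c.2) (z.1 - c.1) (z.2 - c.2) = du (g.dat c'.1 c'.2) (z.1 - c'.1) (z.2 - c'.2) ∧
      dv (g.dat c.1 c.2) (z.1 - c.1) (z.2 - c.2) = dv (g.dat c'.1 c'.2) (z.1 - c'.1) (z.2 - c'.2)) :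
    g.Agree c c' z := by
  refine ⟨h.1, ?_⟩
  unfold Grid.G
  rw [h.2.1, h.2.2]

theorem Grid.agree_symm (g : Grid) {c c' : ℤ × ℤ} {z : ℝ × ℝ} (h : g.Agree c c' z) :
    g.Agree c' c z := ⟨h.1.symm, h.2.symm⟩

theorem Grid.agree_11 (g : Grid) (i j : ℤ) (z : ℝ × ℝ) (h : z ∈ Diam (i, j))
    (h' : z ∈ Diam (i + 1, j + 1)) : g.Agree (i, j) (i + 1, j + 1) z := by
  simp only [Diam, mem_ofPred_eq] at h h'
  push_cast at h'
  have p1 := le_abs_self (z.1 - i)
  have p2 := le_abs_self (z.2 - j)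
  have p3 := neg_abs_le (z.1 - (i + 1))
  have p4 := neg_abs_le (z.2 - (j + 1))
  have q1 := neg_abs_le (z.1 - i)
  have q2 := neg_abs_le (z.2 - j)
  have e : z.2 - j = 1 - (z.1 - i) := by linarith
  have hu : 0 ≤ z.1 - i := by linarith
  have hu1 : z.1 - i ≤ 1 := by linarith
  apply g.agree_of
  simp only
  have := edge_ne (g.dat i j) (g.dat (i + 1) (j + 1)) (by simp [Grid.dat]) (by simp [Grid.dat])
    (by simp [Grid.dat]) (by simp [Grid.dat]) (by simp [Grid.dat]) (by simp [Grid.dat])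
    (by simp [Grid.dat]) (z.1 - i) hu hu1
  have e1 : z.1 - ((i + 1 : ℤ) : ℝ) = z.1 - i - 1 := by push_cast; ring
  have e2 : z.2 - ((j + 1 : ℤ) : ℝ) = -(z.1 - i) := by push_cast; linarith
  rw [e1, e2, e]
  exact this

theorem Grid.agree_1m (g : Grid) (i j : ℤ) (z : ℝ × ℝ) (h : z ∈ Diam (i, j))
    (h' : z ∈ Diam (i + 1, j - 1)) : g.Agree (i, j) (i + 1, j - 1) z := by
  simp only [Diam, mem_ofPred_eq] at h h'
  push_cast at h'
  have p1 := le_abs_self (z.1 - i)
  have p2 := le_abs_self (z.2 - j)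
  have p3 := neg_abs_le (z.1 - (i + 1))
  have p4 := le_abs_self (z.2 - (j - 1))
  have q1 := neg_abs_le (z.1 - i)
  have q2 := neg_abs_le (z.2 - j)
  have e : z.2 - j = (z.1 - i) - 1 := by linarith
  have hu : 0 ≤ z.1 - i := by linarith
  have hu1 : z.1 - i ≤ 1 := by linarith
  apply g.agree_of
  simp only
  have := edge_se (g.dat i j) (g.dat (i + 1) (j - 1)) (by simp [Grid.dat]) (by simp [Grid.dat])
    (by simp [Grid.dat]) (by simp [Grid.dat]) (by simp [Grid.dat]) (by simp [Grid.dat])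
    (by simp [Grid.dat]) (z.1 - i) hu hu1
  have e1 : z.1 - ((i + 1 : ℤ) : ℝ) = z.1 - i - 1 := by push_cast; ring
  have e2 : z.2 - ((j - 1 : ℤ) : ℝ) = z.1 - i := by push_cast; linarith
  rw [e1, e2, e]
  exact this

theorem Grid.agree_20 (g : Grid) (i j : ℤ) (z : ℝ × ℝ) (h : z ∈ Diam (i, j))
    (h' : z ∈ Diam (i + 2, j)) : g.Agree (i, j) (i + 2, j) z := by
  simp only [Diam, mem_ofPred_eq] at h h'
  push_cast at h'
  have p1 := le_abs_self (z.1 - i)
  have p2 := le_abs_self (z.2 - j)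
  have p3 := neg_abs_le (z.1 - (i + 2))
  have q2 := neg_abs_le (z.2 - j)
  have n2 := abs_nonneg (z.2 - j)
  have e : z.1 - i = 1 := by linarith
  have hv : z.2 - j = 0 := by
    have : |z.2 - j| ≤ 0 := by linarith
    exact abs_nonpos_iff.1 this
  apply g.agree_of
  simp only
  have e1 : z.1 - ((i + 2 : ℤ) : ℝ) = -1 := by push_cast; linarith
  rw [e1, e, hv]
  obtain ⟨a1, a2, a3⟩ := at_e (g.dat i j)
  obtain ⟨b1, b2, b3⟩ := at_w (g.dat (i + 2) j)
  rw [a1, a2, a3, b1, b2, b3]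
  have : i + 2 - 1 = i + 1 := by ring
  simp [Grid.dat, this]

theorem Grid.agree_02 (g : Grid) (i j : ℤ) (z : ℝ × ℝ) (h : z ∈ Diam (i, j))
    (h' : z ∈ Diam (i, j + 2)) : g.Agree (i, j) (i, j + 2) z := by
  simp only [Diam, mem_ofPred_eq] at h h'
  push_cast at h'
  have p1 := le_abs_self (z.2 - j)
  have p2 := le_abs_self (z.1 - i)
  have p3 := neg_abs_le (z.2 - (j + 2))
  have q2 := neg_abs_le (z.1 - i)
  have n2 := abs_nonneg (z.1 - i)
  have e : z.2 - j = 1 := by linarith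
  have hv : z.1 - i = 0 := by
    have : |z.1 - i| ≤ 0 := by linarith
    exact abs_nonpos_iff.1 this
  apply g.agree_of
  simp only
  have e1 : z.2 - ((j + 2 : ℤ) : ℝ) = -1 := by push_cast; linarith
  rw [e1, e, hv]
  obtain ⟨a1, a2, a3⟩ := at_n (g.dat i j)
  obtain ⟨b1, b2, b3⟩ := at_s (g.dat i (j + 2))
  rw [a1, a2, a3, b1, b2, b3]
  have : j + 2 - 1 = j + 1 := by ring
  simp [Grid.dat, this]

theorem Grid.agree (g : Grid) (c c' : ℤ × ℤ) (hc : ¬ Even (c.1 + c.2)) (hc' : ¬ Even (c'.1 + c'.2))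
    (z : ℝ × ℝ) (h : z ∈ Diam c) (h' : z ∈ Diam c') : g.Agree c c' z := by
  obtain ⟨i, j⟩ := c
  obtain ⟨i', j'⟩ := c'
  have H := h
  have H' := h'
  simp only [Diam, mem_ofPred_eq] at H H'
  have p1 := le_abs_self (z.1 - i)
  have p2 := le_abs_self (z.2 - j)
  have p3 := le_abs_self (z.1 - i')
  have p4 := le_abs_self (z.2 - j')
  have q1 := neg_abs_le (z.1 - i)
  have q2 := neg_abs_le (z.2 - j)
  have q3 := neg_abs_le (z.1 - i')
  have q4 := neg_abs_le (z.2 - j')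
  have r1 : (i' - i) + (j' - j) ≤ 2 := by
    have : ((i' : ℝ) - i) + (j' - j) ≤ 2 := by linarith
    exact_mod_cast this
  have r2 : (i' - i) - (j' - j) ≤ 2 := by
    have : ((i' : ℝ) - i) - (j' - j) ≤ 2 := by linarith
    exact_mod_cast this
  have r3 : -(i' - i) + (j' - j) ≤ 2 := by
    have : -((i' : ℝ) - i) + (j' - j) ≤ 2 := by linarith
    exact_mod_cast this
  have r4 : -(i' - i) - (j' - j) ≤ 2 := by
    have : -((i' : ℝ) - i) - (j' - j) ≤ 2 := by linarith
    exact_mod_cast this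
  simp only [Int.even_iff] at hc hc'
  have cases : (i' = i ∧ j' = j) ∨ (i' = i + 1 ∧ j' = j + 1) ∨ (i' = i + 1 ∧ j' = j - 1) ∨
      (i' = i + 2 ∧ j' = j) ∨ (i' = i ∧ j' = j + 2) ∨ (i = i' + 1 ∧ j = j' + 1) ∨
      (i = i' + 1 ∧ j = j' - 1) ∨ (i = i' + 2 ∧ j = j') ∨ (i = i' ∧ j = j' + 2) := by
    omega
  rcases cases with ⟨rfl, rfl⟩ | ⟨rfl, rfl⟩ | ⟨rfl, rfl⟩ | ⟨rfl, rfl⟩ | ⟨rfl, rfl⟩ | ⟨rfl, rfl⟩ |
    ⟨rfl, rfl⟩ | ⟨rfl, rfl⟩ | ⟨rfl, rfl⟩
  · exact ⟨rfl, rfl⟩
  · exact g.agree_11 _ _ z h h'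
  · exact g.agree_1m _ _ z h h'
  · exact g.agree_20 _ _ z h h'
  · exact g.agree_02 _ _ z h h'
  · exact g.agree_symm (g.agree_11 _ _ z h' h)
  · exact g.agree_symm (g.agree_1m _ _ z h' h)
  · exact g.agree_symm (g.agree_20 _ _ z h' h)
  · exact g.agree_symm (g.agree_02 _ _ z h' h)

/-- The glued function. -/
theorem Grid.exists_glued (g : Grid) : ∃ s : ℝ × ℝ → ℝ, ContDiff ℝ 1 s ∧
    ∀ c : ℤ × ℤ, ¬ Even (c.1 + c.2) → ∀ z ∈ Diam c, s z = g.S c z := by
  choose cc hcc using diam_cover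
  refine ⟨fun z => g.S (cc z).1 z, ?_, ?_⟩
  · refine glue_contDiff (fun c : Odd2 => Diam c.1) diam_locallyFinite (fun c => diam_closed _)
      diam_cover (fun c => g.S c.1) (fun c => g.G c.1) (fun c z => g.S_deriv _ _) (fun c => g.G_cont _)
      ?_ _ ?_
    · intro c c' z hz hz'
      exact g.agree _ _ c.2 c'.2 z hz hz'
    · intro c z hz
      exact (g.agree _ _ (cc z).2 c.2 z (hcc z) hz).1
  · intro c hc z hz
    exact (g.agree _ _ (cc z).2 hc z (hcc z) hz).1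

/-! ### Cubic pieces -/

theorem Cub.isCubicOn (q : Cub) (s : ℝ × ℝ → ℝ) (T : Set (ℝ × ℝ)) (h : ∀ z ∈ T, s z = q.ev z.1 z.2) :
    IsCubicOn s T := by
  refine ⟨fun a b => match a, b with
    | 0, 0 => q.c00
    | 1, 0 => q.c10
    | 0, 1 => q.c01
    | 2, 0 => q.c20
    | 1, 1 => q.c11
    | 0, 2 => q.c02
    | 3, 0 => q.c30
    | 2, 1 => q.c21
    | 1, 2 => q.c12
    | 0, 3 => q.c03
    | _, _ => 0, fun z hz => ?_⟩
  rw [h z hz]
  simp only [Finset.sum_range_succ, Finset.sum_range_zero, Cub.ev]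
  ring

/-- The cubic polynomial which gives the interpolant on the quadrant with the signs `p`, `q`. -/
noncomputable def quad (D : Dat) (p q : ℝ) : Cub :=
  ⟨kp00 D, kp10 D, kp01 D, kp20 D + p * ka0 D, kp11 D, kp02 D + q * kb0 D, kp30 D + p * ka1 D,
    kp21 D + p * ka2 D, kp12 D + q * kb1 D, kp03 D + q * kb2 D⟩

theorem val_quad (D : Dat) (p q u v : ℝ) (hu : |u| = p * u) (hv : |v| = q * v) :
    val D u v = (quad D p q).ev u v := by
  rw [val, hu, hv, quad, Cub.ev]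
  ring

theorem Grid.cubic_quad (g : Grid) (s : ℝ × ℝ → ℝ) (T : Set (ℝ × ℝ)) (c : ℤ × ℤ) (p q : ℝ)
    (h : ∀ z ∈ T, s z = g.S c z) (hu : ∀ z ∈ T, |z.1 - c.1| = p * (z.1 - c.1))
    (hv : ∀ z ∈ T, |z.2 - c.2| = q * (z.2 - c.2)) : IsCubicOn s T := by
  refine ((quad (g.dat c.1 c.2) p q).shift (-c.1) (-c.2)).isCubicOn s T fun z hz => ?_
  rw [h z hz, Grid.S, val_quad _ p q _ _ (hu z hz) (hv z hz), Cub.shift_ev]
  rfl

/-- On the triangles of a square at which the pattern is the union-jack pattern the glued function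
is cubic. -/
theorem Grid.cubic_cell (g : Grid) (s : ℝ × ℝ → ℝ)
    (hs : ∀ c : ℤ × ℤ, ¬ Even (c.1 + c.2) → ∀ z ∈ Diam c, s z = g.S c z)
    (σ : Pattern) (i j : ℤ) (b : Bool) (hσ : σ i j = unionJack i j) :
    IsCubicOn s (Cell σ 1 i j b) := by
  by_cases hp : Even (i + j)
  · have h0 : σ i j = true := by rw [hσ]; simpa [unionJack] using hp
    cases b with
    | true =>
      have hodd : ¬ Even ((i + 1, j).1 + (i + 1, j).2 : ℤ) := by
        simp only
        rw [Int.even_iff] at hp ⊢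
        omega
      refine g.cubic_quad s _ (i + 1, j) (-1) 1 ?_ ?_ ?_
      · rintro z ⟨h1, h2, h3, h4, h5, -⟩
        refine hs _ hodd z ?_
        have h6 := h5 h0 rfl
        simp only [mul_one] at h1 h2 h3 h4 h6
        simp only [Diam, mem_ofPred_eq]
        push_cast
        rw [abs_of_nonpos (by linarith), abs_of_nonneg (by linarith)]
        linarith
      · rintro z ⟨h1, h2, h3, h4, -⟩
        simp only [mul_one] at h1 h2
        push_cast
        rw [abs_of_nonpos (by linarith)]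
        ring
      · rintro z ⟨h1, h2, h3, h4, -⟩
        simp only [mul_one] at h3 h4
        rw [abs_of_nonneg (by linarith)]
        ring
    | false =>
      have hodd : ¬ Even ((i, j + 1).1 + (i, j + 1).2 : ℤ) := by
        simp only
        rw [Int.even_iff] at hp ⊢
        omega
      refine g.cubic_quad s _ (i, j + 1) 1 (-1) ?_ ?_ ?_
      · rintro z ⟨h1, h2, h3, h4, -, h5, -⟩
        refine hs _ hodd z ?_
        have h6 := h5 h0 rfl
        simp only [mul_one] at h1 h2 h3 h4 h6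
        simp only [Diam, mem_ofPred_eq]
        push_cast
        rw [abs_of_nonneg (by linarith), abs_of_nonpos (by linarith)]
        linarith
      · rintro z ⟨h1, h2, h3, h4, -⟩
        simp only [mul_one] at h1 h2
        rw [abs_of_nonneg (by linarith)]
        ring
      · rintro z ⟨h1, h2, h3, h4, -⟩
        simp only [mul_one] at h3 h4
        push_cast
        rw [abs_of_nonpos (by linarith)]
        ring
  · have h0 : σ i j = false := by rw [hσ]; simpa [unionJack] using hp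
    cases b with
    | true =>
      refine g.cubic_quad s _ (i, j) 1 1 ?_ ?_ ?_
      · rintro z ⟨h1, h2, h3, h4, -, -, h5, -⟩
        refine hs _ hp z ?_
        have h6 := h5 h0 rfl
        simp only [mul_one] at h1 h2 h3 h4 h6
        simp only [Diam, mem_ofPred_eq]
        rw [abs_of_nonneg (by linarith), abs_of_nonneg (by linarith)]
        linarith
      · rintro z ⟨h1, h2, h3, h4, -⟩
        simp only [mul_one] at h1 h2
        rw [abs_of_nonneg (by linarith)]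
        ring
      · rintro z ⟨h1, h2, h3, h4, -⟩
        simp only [mul_one] at h3 h4
        rw [abs_of_nonneg (by linarith)]
        ring
    | false =>
      have hodd : ¬ Even ((i + 1, j + 1).1 + (i + 1, j + 1).2 : ℤ) := by
        simp only
        rw [Int.even_iff] at hp ⊢
        omega
      refine g.cubic_quad s _ (i + 1, j + 1) (-1) (-1) ?_ ?_ ?_
      · rintro z ⟨h1, h2, h3, h4, -, -, -, h5⟩
        refine hs _ hodd z ?_
        have h6 := h5 h0 rfl
        simp only [mul_one] at h1 h2 h3 h4 h6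
        simp only [Diam, mem_ofPred_eq]
        push_cast
        rw [abs_of_nonpos (by linarith), abs_of_nonpos (by linarith)]
        linarith
      · rintro z ⟨h1, h2, h3, h4, -⟩
        simp only [mul_one] at h1 h2
        push_cast
        rw [abs_of_nonpos (by linarith)]
        ring
      · rintro z ⟨h1, h2, h3, h4, -⟩
        simp only [mul_one] at h3 h4
        push_cast
        rw [abs_of_nonpos (by linarith)]
        ring

end Pool.Agent.W5h57.SP
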