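import Pool.Agent.W5h57.SP.Taylor

/-!
# The order of approximation is at most four; many patterns
-/

set_option autoImplicit false

open Set Finset

namespace Pool.Agent.W5h57.SP

theorem x4_smooth (k : WithTop ℕ∞) : ContDiff ℝ k (fun z : ℝ × ℝ => z.1 ^ 4) :=
  contDiff_fst.pow 4

theorem x4_bound (z : ℝ × ℝ) : ‖iteratedFDeriv ℝ 4 (fun z : ℝ × ℝ => z.1 ^ 4) z‖ ≤ 24 := by
  have e : (fun z : ℝ × ℝ => z.1 ^ 4) = (fun x : ℝ => x ^ 4) ∘ (ContinuousLinearMap.fst ℝ ℝ ℝ) := by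
    ext z; rfl
  have hg : ContDiff ℝ 4 (fun x : ℝ => x ^ 4) := contDiff_id.pow 4
  rw [e, (ContinuousLinearMap.fst ℝ ℝ ℝ).iteratedFDeriv_comp_right hg z le_rfl]
  refine (ContinuousMultilinearMap.norm_compContinuousLinearMap_le _ _).trans ?_
  rw [Finset.prod_const, Finset.card_univ, Fintype.card_fin]
  have h1 : ‖iteratedFDeriv ℝ 4 (fun x : ℝ => x ^ 4) (ContinuousLinearMap.fst ℝ ℝ ℝ z)‖ = 24 := by
    rw [norm_iteratedFDeriv_eq_norm_iteratedDeriv, iteratedDeriv_pow]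
    norm_num [Nat.descFactorial]
  rw [h1]
  have h2 : ‖ContinuousLinearMap.fst ℝ ℝ ℝ‖ ≤ 1 := ContinuousLinearMap.norm_fst_le ℝ ℝ ℝ
  calc (24 : ℝ) * ‖ContinuousLinearMap.fst ℝ ℝ ℝ‖ ^ 4 ≤ 24 * 1 :=
        mul_le_mul_of_nonneg_left (pow_le_one₀ (norm_nonneg _) h2) (by norm_num)
    _ = 24 := mul_one _

/-- The order of approximation is at most four. -/
theorem order_le (σ : Pattern) (k : WithTop ℕ∞) (ρ : ℝ) (hρ : HasOrder σ k ρ) : ρ ≤ 4 := by
  by_contra hcon
  rw [not_le] at hcon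
  obtain ⟨C, hC⟩ := hρ
  -- the basic inequality
  have key : ∀ h : ℝ, 0 < h → h ≤ 1 → 3 / 32 * h ^ 4 ≤ 16 * (C * 24 * (Real.sqrt 2 * h) ^ ρ) := by
    intro h hh hh1
    refine le_of_forall_pos_le_add fun ε hε => ?_
    obtain ⟨s, hs, hb⟩ := hC h hh hh1 _ (x4_smooth k) 24 x4_bound (ε / 16) (by positivity)
    obtain ⟨c, hc⟩ := hs.2 0 0 true
    have hmem : ∀ t : ℝ, 0 ≤ t → t ≤ h → ((t, 0) : ℝ × ℝ) ∈ Cell σ h 0 0 true := by
      intro t ht0 ht1
      refine ⟨by simpa using ht0, by simpa using ht1, by simp, by simpa using hh.le, ?_, ?_, ?_, ?_⟩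
      · intro _ _
        simpa using ht0
      · intro _ h; simp at h
      · intro _ _
        simpa using ht1
      · intro _ h; simp at h
    have val : ∀ t : ℝ, 0 ≤ t → t ≤ h → s (t, 0) = c 0 0 + c 1 0 * t + c 2 0 * t ^ 2 + c 3 0 * t ^ 3 := by
      intro t ht0 ht1
      rw [hc _ (hmem t ht0 ht1)]
      simp [Finset.sum_range_succ]
    have b0 := hb (0, 0)
    have b1 := hb (h / 4, 0)
    have b2 := hb (h / 2, 0)
    have b3 := hb (3 * h / 4, 0)
    have b4 := hb (h, 0)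
    rw [val _ (by linarith) (by linarith)] at b0 b1 b2 b3 b4
    simp only at b0 b1 b2 b3 b4
    rw [abs_le] at b0 b1 b2 b3 b4
    nlinarith [b0.1, b0.2, b1.1, b1.2, b2.1, b2.2, b3.1, b3.2, b4.1, b4.2]
  -- the contradiction
  set A : ℝ := 16 * 32 / 3 * |C * 24| * Real.sqrt 2 ^ ρ with hA
  have hA0 : 0 ≤ A := by positivity
  have key2 : ∀ h : ℝ, 0 < h → h ≤ 1 → 1 ≤ A * h ^ (ρ - 4) := by
    intro h hh hh1
    have h1 := key h hh hh1
    have h2 : C * 24 * (Real.sqrt 2 * h) ^ ρ ≤ |C * 24| * (Real.sqrt 2 * h) ^ ρ :=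
      mul_le_mul_of_nonneg_right (le_abs_self _) (by positivity)
    have h3 : (Real.sqrt 2 * h) ^ ρ = Real.sqrt 2 ^ ρ * h ^ ρ :=
      Real.mul_rpow (Real.sqrt_nonneg _) hh.le
    have h4 : h ^ ρ = h ^ (ρ - 4) * h ^ 4 := by
      rw [← Real.rpow_natCast h 4, ← Real.rpow_add hh]
      congr 1
      push_cast
      ring
    have h5 : h ^ 4 ≤ (A * h ^ (ρ - 4)) * h ^ 4 := by
      calc h ^ 4 = 32 / 3 * (3 / 32 * h ^ 4) := by ring
        _ ≤ 32 / 3 * (16 * (|C * 24| * (Real.sqrt 2 * h) ^ ρ)) := by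
            have : 3 / 32 * h ^ 4 ≤ 16 * (|C * 24| * (Real.sqrt 2 * h) ^ ρ) := by linarith
            linarith
        _ = (A * h ^ (ρ - 4)) * h ^ 4 := by rw [h3, h4, hA]; ring
    exact le_of_mul_le_mul_right (by linarith) (by positivity : (0 : ℝ) < h ^ 4)
  have hp : 0 < ρ - 4 := by linarith
  have h6 := key2 ((1 / (A + 1)) ^ (1 / (ρ - 4))) (by positivity)
    (Real.rpow_le_one (by positivity) (by rw [div_le_one (by linarith)]; linarith) (by positivity))
  rw [← Real.rpow_mul (by positivity), one_div_mul_cancel hp.ne', Real.rpow_one] at h6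
  have h7 : A * (1 / (A + 1)) < 1 := by
    rw [mul_one_div, div_lt_one (by linarith)]
    linarith
  linarith

theorem good_of_near {σ : Pattern} (h : NearUnionJack σ) :
    ∃ (N : ℕ) (cl : ℤ × ℤ → ℤ × ℤ), Good σ N cl := by
  obtain ⟨N, cl, h⟩ := h
  refine ⟨N, cl, fun q hq => ?_⟩
  obtain ⟨h1, h2, h3⟩ := h q.1 q.2 hq
  exact ⟨h1, h2, fun q' hq' h4 h5 => h3 q'.1 q'.2 hq' h4 h5⟩

theorem isGreatest_of_near {σ : Pattern} (h : NearUnionJack σ) (k : WithTop ℕ∞) (hk : 4 ≤ k) :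
    IsGreatest {ρ : ℝ | HasOrder σ k ρ} 4 := by
  obtain ⟨N, cl, hg⟩ := good_of_near h
  exact ⟨order_ge hg k hk, fun ρ hρ => order_le σ k ρ hρ⟩

theorem near_unionJack : NearUnionJack unionJack :=
  ⟨0, id, fun _ _ h => absurd rfl h⟩

open Classical in
/-- The union-jack pattern changed at the squares `(4 n, 0)` with `a n = true`. -/
noncomputable def flipped (a : ℕ → Bool) : Pattern := fun i j =>
  if j = 0 ∧ ∃ n : ℕ, i = 4 * n ∧ a n = true then !(unionJack i j) else unionJack i j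

theorem near_flipped (a : ℕ → Bool) : NearUnionJack (flipped a) := by
  have key : ∀ i j, flipped a i j ≠ unionJack i j → j = 0 ∧ ∃ n : ℕ, i = 4 * n := by
    intro i j h
    by_contra hcon
    refine h ?_
    unfold flipped
    rw [if_neg]
    rintro ⟨h1, n, h2, -⟩
    exact hcon ⟨h1, n, h2⟩
  refine ⟨0, id, fun i j h => ⟨by simp, by simp, fun i' j' h' h1 h2 => ?_⟩⟩
  obtain ⟨rfl, n, rfl⟩ := key i j h
  obtain ⟨rfl, m, rfl⟩ := key i' j' h'
  rw [abs_le] at h1
  have : n = m := by omega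
  rw [this]

theorem flipped_injective : Function.Injective flipped := by
  have key : ∀ (a : ℕ → Bool) (n : ℕ),
      (flipped a (4 * (n : ℤ)) 0 ≠ unionJack (4 * (n : ℤ)) 0) ↔ a n = true := by
    intro a n
    constructor
    · intro h
      by_contra hcon
      refine h ?_
      unfold flipped
      rw [if_neg]
      rintro ⟨-, m, h1, h2⟩
      have : n = m := by omega
      rw [this] at hcon
      exact hcon h2
    · intro h
      unfold flipped
      rw [if_pos ⟨rfl, n, rfl, h⟩]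
      simp
  intro a b hab
  ext n
  have h1 := key a n
  rw [hab, key b n] at h1
  cases ha : a n <;> cases hb : b n <;> simp_all

theorem uncountable_near : ¬ {σ : Pattern | NearUnionJack σ}.Countable := by
  intro h
  have h1 : (Set.range flipped).Countable := h.mono (by rintro _ ⟨a, rfl⟩; exact near_flipped a)
  have h2 : (Set.univ : Set (ℕ → Bool)).Countable := by
    have h3 := h1.preimage_of_injOn (f := flipped) (flipped_injective.injOn)
    rw [Set.preimage_range] at h3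
    exact h3
  rw [Set.countable_univ_iff] at h2
  obtain ⟨g, hg⟩ := exists_surjective_nat (ℕ → Bool)
  obtain ⟨n, hn⟩ := hg fun m => !(g m m)
  have := congrFun hn n
  cases h : g n n <;> simp_all

end Pool.Agent.W5h57.SP
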